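import Pool.Agent.Lib.MP_7a5dd1_an.Baire

set_option autoImplicit false

namespace Pool.Agent.MP_7a5dd1_an

open Metric Finset

/-- Laurent monomials. -/
noncomputable def zmono (k : ℤ) : X :=
  ⟨fun z => ((z ^ k : Circle) : ℂ),
    (show Continuous fun z : Circle => (z : ℂ) by fun_prop).comp (continuous_zpow k)⟩

@[simp] lemma zmono_apply (k : ℤ) (z : Circle) : zmono k z = ((z ^ k : Circle) : ℂ) := rfl

lemma zmono_natCast (n : ℕ) : zmono (n : ℤ) = mono n := by
  ext z
  simp [mono_apply]

/-- The basic root of unity. -/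
noncomputable def omega (N : ℕ) : Circle := Circle.exp (2 * Real.pi / N)

lemma omega_primitive (N : ℕ) (hN : N ≠ 0) : IsPrimitiveRoot (omega N) N := by
  have h := Complex.isPrimitiveRoot_exp N hN
  have h2 : ((omega N : Circle) : ℂ) = Complex.exp (2 * Real.pi * Complex.I / N) := by
    rw [omega, Circle.coe_exp]
    congr 1
    push_cast
    ring
  rw [← h2] at h
  exact (IsPrimitiveRoot.map_iff_of_injective (f := Circle.coeHom) Circle.coe_injective).1 h

/-- The average over the rotations by the `N`-th roots of unity. -/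
noncomputable def avg (N : ℕ) : X →L[ℂ] X :=
  (1 / (N : ℂ)) • ∑ j ∈ range N, compX (rotMap (omega N ^ j))

lemma avg_apply (N : ℕ) (h : X) (z : Circle) :
    avg N h z = (1 / (N : ℂ)) * ∑ j ∈ range N, h (z * omega N ^ j) := by
  simp [avg]

lemma avg_zmono_of_not_dvd (N : ℕ) (hN : N ≠ 0) (k : ℤ) (hk : ¬ (N : ℤ) ∣ k) :
    avg N (zmono k) = 0 := by
  ext z
  rw [avg_apply]
  have h1 : ∀ j, zmono k (z * omega N ^ j) =
      ((z ^ k : Circle) : ℂ) * (((omega N ^ k : Circle) : ℂ)) ^ j := by
    intro j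
    rw [zmono_apply, mul_zpow, Circle.coe_mul, ← Circle.coe_pow]
    congr 2
    rw [← zpow_natCast, ← zpow_natCast, ← zpow_mul, ← zpow_mul, mul_comm]
  simp_rw [h1]
  rw [← Finset.mul_sum]
  have hne : ((omega N ^ k : Circle) : ℂ) ≠ 1 := by
    intro h
    apply hk
    rw [← (omega_primitive N hN).zpow_eq_one_iff_dvd]
    exact Circle.coe_injective (by rw [h, Circle.coe_one])
  have hpow : (((omega N ^ k : Circle) : ℂ)) ^ N = 1 := by
    rw [← Circle.coe_pow, ← zpow_natCast, ← zpow_mul, mul_comm, zpow_mul, zpow_natCast,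
      (omega_primitive N hN).pow_eq_one, one_zpow, Circle.coe_one]
  rw [geom_sum_eq hne, hpow]
  simp

lemma avg_of_invariant (N : ℕ) (hN : N ≠ 0) (h : X) (z : Circle)
    (hinv : ∀ j, h (z * omega N ^ j) = h z) : avg N h z = h z := by
  rw [avg_apply]
  simp_rw [hinv]
  rw [sum_const, card_range, nsmul_eq_mul]
  field_simp

lemma avg_mul_of_invariant (N : ℕ) (h g : X) (z : Circle)
    (hinv : ∀ j, h (z * omega N ^ j) = h z) : avg N (g * h) z = avg N g z * h z := by
  rw [avg_apply, avg_apply]
  simp_rw [ContinuousMap.mul_apply, hinv]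
  rw [← Finset.sum_mul, mul_assoc]

lemma avg_zmono_zero (N : ℕ) (hN : N ≠ 0) (z : Circle) : avg N (zmono 0) z = 1 := by
  rw [avg_of_invariant N hN]
  · simp
  · intro j; simp

lemma omega_pow_pow (N : ℕ) (hN : N ≠ 0) (j : ℕ) : (omega N ^ j) ^ N = 1 := by
  rw [← pow_mul, mul_comm, pow_mul, (omega_primitive N hN).pow_eq_one, one_pow]

lemma zpow_mul_omega (N : ℕ) (hN : N ≠ 0) (z : Circle) (l : ℕ) (i : ℤ) :
    (z * omega N ^ l) ^ ((N : ℤ) * i) = z ^ ((N : ℤ) * i) := by
  rw [mul_zpow, zpow_mul (omega N ^ l), zpow_natCast, omega_pow_pow N hN, one_zpow, mul_one]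

/-- Every element of the circle is an `N`-th power. -/
lemma exists_pow_eq (N : ℕ) (hN : N ≠ 0) (z : Circle) : ∃ y : Circle, y ^ N = z := by
  refine ⟨Circle.exp (Complex.arg z / N), ?_⟩
  rw [← Circle.exp_nsmul]
  have : N • (Complex.arg z / N) = Complex.arg z := by
    rw [nsmul_eq_mul]
    field_simp
  rw [this]
  exact Circle.exp_arg z

/-- Composition with the power map as an isometry. -/
noncomputable def powIso (N : ℕ) (hN : N ≠ 0) : DA →ₗᵢ[ℂ] X where
  toLinearMap := ((compX (powMap N)).comp DA.subtypeL).toLinearMap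
  norm_map' := by
    intro f
    refine le_antisymm ?_ ?_
    · refine (ContinuousMap.norm_le _ (norm_nonneg _)).2 fun z => ?_
      exact norm_apply_le f (z ^ N)
    · refine (norm_DA_le _ (norm_nonneg _)).2 fun z => ?_
      obtain ⟨y, rfl⟩ := exists_pow_eq N hN z
      exact (compX (powMap N) (f : X)).norm_coe_le_norm y

@[simp] lemma powIso_apply (N : ℕ) (hN : N ≠ 0) (f : DA) (z : Circle) :
    powIso N hN f z = (f : X) (z ^ N) := rfl

/-- Lifting an operator whose values are functions of `z ^ N`. -/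
lemma exists_lift (N : ℕ) (hN : N ≠ 0) (Ψ : X →L[ℂ] X)
    (h : ∀ n, Ψ (mono n) ∈ LinearMap.range (powIso N hN).toLinearMap) :
    ∃ V : DA →L[ℂ] DA, ∀ (g : DA) (z : Circle), ((V g : DA) : X) (z ^ N) = Ψ (g : X) z := by
  have hclosed : IsClosed (LinearMap.range (powIso N hN).toLinearMap : Set X) := by
    have := (powIso N hN).isometry.isClosedEmbedding.isClosed_range
    rwa [LinearMap.coe_range]
  have hmem : ∀ g : DA, Ψ (g : X) ∈ LinearMap.range (powIso N hN).toLinearMap :=
    fun g => map_le Ψ _ hclosed h g.2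
  set e := (powIso N hN).equivRange with he
  refine ⟨(e.symm.toContinuousLinearEquiv : _ →L[ℂ] DA).comp
    ((Ψ.comp DA.subtypeL).codRestrict _ hmem), fun g z => ?_⟩
  have h1 : powIso N hN (e.symm ⟨Ψ (g : X), hmem g⟩) = Ψ (g : X) := by
    have := e.apply_symm_apply ⟨Ψ (g : X), hmem g⟩
    exact congrArg Subtype.val this
  calc _ = powIso N hN (e.symm ⟨Ψ (g : X), hmem g⟩) z := rfl
    _ = Ψ (g : X) z := by rw [h1]

lemma star_mono_mul_mono (j k : ℕ) : star (mono j) * mono k = zmono ((k : ℤ) - j) := by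
  ext z
  rw [ContinuousMap.mul_apply, ContinuousMap.star_apply, mono_apply, mono_apply, zmono_apply,
    zpow_sub, Circle.coe_mul, Circle.coe_inv_eq_conj]
  simp [mul_comm]

/-- The averaging operator with the weight `star p`. -/
lemma exists_V (N : ℕ) (hN : N ≠ 0) (p : X) (hp : p ∈ Submodule.span ℂ (mono '' {j | j < N})) :
    ∃ V : DA →L[ℂ] DA, ∀ (g : DA) (z : Circle),
      ((V g : DA) : X) (z ^ N) = avg N (star p * (g : X)) z := by
  refine exists_lift N hN ((avg N).comp (ContinuousLinearMap.mul ℂ X (star p))) fun k => ?_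
  change avg N (star p * mono k) ∈ _
  induction hp using Submodule.span_induction with
  | mem x hx =>
    obtain ⟨j, hj, rfl⟩ := hx
    rw [star_mono_mul_mono]
    by_cases hd : (N : ℤ) ∣ (k : ℤ) - j
    · obtain ⟨i, hi⟩ := hd
      have hj' : (j : ℤ) < N := by exact_mod_cast hj
      have hi0 : 0 ≤ i := by
        by_contra hneg
        push Not at hneg
        have h1 : (N : ℤ) * i ≤ N * (-1) := by
          apply mul_le_mul_of_nonneg_left
          · omega
          · positivity
        have h2 : (0 : ℤ) ≤ k := by positivity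
        omega
      obtain ⟨i', rfl⟩ := Int.eq_ofNat_of_zero_le hi0
      refine ⟨⟨mono i', mono_mem i'⟩, ?_⟩
      ext z
      rw [hi, avg_of_invariant N hN]
      · change mono i' (z ^ N) = _
        rw [mono_apply, zmono_apply, zpow_mul, zpow_natCast, zpow_natCast, Circle.coe_pow,
          Circle.coe_pow, Circle.coe_pow]
      · intro l
        rw [zmono_apply, zmono_apply, zpow_mul_omega N hN]
    · rw [avg_zmono_of_not_dvd N hN _ hd]
      exact Submodule.zero_mem _
  | zero =>
    simp
  | add x y hx hy ihx ihy =>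
    rw [star_add, add_mul, map_add]
    exact Submodule.add_mem _ ihx ihy
  | smul c x hx ih =>
    rw [star_smul, smul_mul_assoc, map_smul]
    exact Submodule.smul_mem _ _ ih

end Pool.Agent.MP_7a5dd1_an
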