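import Pool.Agent.Lib.MP_7a5dd1_an.Ops

set_option autoImplicit false

namespace Pool.Agent.MP_7a5dd1_an

open Metric

/-- Gliding hump: a bounded functional on the disc algebra is small on functions which vanish
at a point and are small outside a small neighbourhood of it. -/
lemma hump (Λ : DA →L[ℂ] ℂ) (K : ℝ) (hK : ‖Λ‖ ≤ K) (ζ : Circle) (ε : ℝ) (hε : 0 < ε) :
    ∃ r : ℝ, 0 < r ∧ ∀ g : DA, ‖g‖ ≤ 1 → (g : X) ζ = 0 →
      (∀ η : Circle, r ≤ dist η ζ → ‖(g : X) η‖ ≤ ε) → ‖Λ g‖ ≤ (K + 1) * ε := by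
  by_contra hcon
  push Not at hcon
  have hK0 : 0 ≤ K := le_trans (norm_nonneg Λ) hK
  have key : ∀ n : ℕ, ∀ r : ℝ, 0 < r → ∃ s : DA, ‖s‖ ≤ 1 + n * ε ∧ (s : X) ζ = 0 ∧
      (∀ η : Circle, r ≤ dist η ζ → ‖(s : X) η‖ ≤ n * ε) ∧ n * ((K + 1) * ε) ≤ (Λ s).re := by
    intro n
    induction n with
    | zero =>
      intro r hr
      exact ⟨0, by simp, by simp, by simp, by simp⟩
    | succ n ih =>
      intro r hr
      obtain ⟨g0, hg1, hgz, hgo, hgL⟩ := hcon r hr
      -- normalise the phase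
      obtain ⟨θ, hθ, hθL⟩ : ∃ θ : ℂ, ‖θ‖ = 1 ∧ θ * Λ g0 = (‖Λ g0‖ : ℂ) := by
        by_cases h0 : Λ g0 = 0
        · exact ⟨1, by simp, by simp [h0]⟩
        · refine ⟨(‖Λ g0‖ : ℂ) / Λ g0, ?_, ?_⟩
          · rw [norm_div, Complex.norm_real, norm_norm]
            exact div_self (norm_ne_zero_iff.2 h0)
          · field_simp
      set g : DA := θ • g0 with hg
      have hgv : ∀ η, ‖(g : X) η‖ = ‖(g0 : X) η‖ := by
        intro η
        simp [hg, hθ]
      have hg1' : ‖g‖ ≤ 1 := by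
        rw [hg, norm_smul, hθ, one_mul]; exact hg1
      have hgz' : (g : X) ζ = 0 := by simp [hg, hgz]
      have hgL' : (K + 1) * ε ≤ (Λ g).re := by
        rw [hg, map_smul, smul_eq_mul, hθL, Complex.ofReal_re]
        exact hgL.le
      -- continuity at ζ
      obtain ⟨r', hr', hcont⟩ : ∃ r' : ℝ, 0 < r' ∧ ∀ η : Circle, dist η ζ < r' →
          ‖(g : X) η‖ ≤ ε := by
        have hc := (Metric.continuousAt_iff.1 ((g : X).continuous.continuousAt (x := ζ))) ε hε
        obtain ⟨δ, hδ, h⟩ := hc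
        refine ⟨δ, hδ, fun η hη => ?_⟩
        have := h hη
        rw [hgz', dist_zero_right] at this
        exact this.le
      obtain ⟨s, hs1, hsz, hso, hsL⟩ := ih (min r r') (lt_min hr hr')
      have hnε : (0:ℝ) ≤ n * ε := by positivity
      refine ⟨g + s, ?_, ?_, ?_, ?_⟩
      · refine (norm_DA_le _ (by positivity)).2 fun η => ?_
        have hsum : ‖((g + s : DA) : X) η‖ ≤ ‖(g : X) η‖ + ‖(s : X) η‖ := by
          simpa using norm_add_le ((g : X) η) ((s : X) η)
        refine hsum.trans ?_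
        push_cast
        by_cases hη : dist η ζ < r'
        · have h1 := hcont η hη
          have h2 := (norm_apply_le s η).trans hs1
          linarith
        · push Not at hη
          have h1 := (norm_apply_le g η).trans hg1'
          have h2 := hso η ((min_le_right _ _).trans hη)
          linarith
      · simp [hgz', hsz]
      · intro η hη
        have hsum : ‖((g + s : DA) : X) η‖ ≤ ‖(g : X) η‖ + ‖(s : X) η‖ := by
          simpa using norm_add_le ((g : X) η) ((s : X) η)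
        have h1 : ‖(g : X) η‖ ≤ ε := by rw [hgv]; exact hgo η hη
        have h2 := hso η ((min_le_left _ _).trans hη)
        refine hsum.trans ?_
        push_cast
        linarith
      · rw [map_add, Complex.add_re]
        push_cast
        linarith
  obtain ⟨n, hn⟩ := exists_nat_gt (K / ε)
  obtain ⟨s, hs1, -, -, hsL⟩ := key n 1 one_pos
  have h1 : (Λ s).re ≤ K * (1 + n * ε) :=
    calc (Λ s).re ≤ ‖Λ s‖ := Complex.re_le_norm _
      _ ≤ ‖Λ‖ * ‖s‖ := Λ.le_opNorm s
      _ ≤ K * (1 + n * ε) := by gcongr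
  have h2 : K < n * ε := by
    rw [div_lt_iff₀ hε] at hn
    exact hn
  nlinarith

lemma circle_dist (a b : Circle) : dist a b = ‖(a : ℂ) - b‖ := by
  rw [← dist_eq_norm]; rfl

lemma dist_mul_left_circle (z a b : Circle) : dist (z * a) (z * b) = dist a b := by
  rw [circle_dist, circle_dist, Circle.coe_mul, Circle.coe_mul, ← mul_sub, norm_mul,
    Circle.norm_coe, one_mul]

lemma dist_mul_right_circle (a b z : Circle) : dist (a * z) (b * z) = dist a b := by
  rw [mul_comm a, mul_comm b, dist_mul_left_circle]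

/-- Continuity of rotations. -/
lemma rot_tendsto (g : DA) (a : Circle) (ε : ℝ) (hε : 0 < ε) :
    ∃ δ : ℝ, 0 < δ ∧ ∀ b : Circle, dist b a < δ → ‖rot b g - rot a g‖ ≤ ε := by
  have huc := CompactSpace.uniformContinuous_of_continuous (g : X).continuous
  obtain ⟨δ, hδ, h⟩ := Metric.uniformContinuous_iff.1 huc ε hε
  refine ⟨δ, hδ, fun b hb => ?_⟩
  refine (norm_DA_le _ hε.le).2 fun z => ?_
  have hd : dist (z * b) (z * a) < δ := by
    rw [dist_mul_left_circle]; exact hb
  have := h hd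
  rw [dist_eq_norm] at this
  simpa using this.le

lemma rot_one (g : DA) : rot 1 g = g := by
  ext z
  simp

/-- The set of functions concentrated near `ζ` and vanishing at `ζ`. -/
def Conc (ε : ℝ) (k : ℕ) (ζ : Circle) : Set DA :=
  {g | ‖g‖ ≤ 1 ∧ (g : X) ζ = 0 ∧ ∀ η : Circle, 1 / ((k : ℝ) + 1) ≤ dist η ζ → ‖(g : X) η‖ ≤ ε}

/-- The Baire argument. -/
lemma baire_arc (T : DA →L[ℂ] DA) (ε : ℝ) (hε : 0 < ε) :
    ∃ ζ₀ : Circle, ∃ ρ : ℝ, 0 < ρ ∧ ∃ k : ℕ, ∀ ζ : Circle, dist ζ ζ₀ < ρ →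
      ∀ g ∈ Conc ε k ζ, ‖(T g : X) ζ‖ ≤ (‖T‖ + 1) * ε := by
  set F : ℕ → Set Circle := fun k => {ζ | ∀ g ∈ Conc ε k ζ, ‖(T g : X) ζ‖ ≤ (‖T‖ + 1) * ε}
    with hF
  have hclosed : ∀ k, IsClosed (F k) := by
    intro k
    rw [← isSeqClosed_iff_isClosed]
    intro zs ζ hzs hlim g hg
    obtain ⟨hg1, hgz, hgo⟩ := hg
    -- rotated functions
    set gm : ℕ → DA := fun m => rot (ζ * (zs m)⁻¹) g with hgm
    have hgm_mem : ∀ m, gm m ∈ Conc ε k (zs m) := by
      intro m
      refine ⟨?_, ?_, ?_⟩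
      · refine (norm_DA_le _ zero_le_one).2 fun z => ?_
        rw [hgm, rot_apply]
        exact (norm_apply_le g _).trans hg1
      · rw [hgm, rot_apply]
        have : zs m * (ζ * (zs m)⁻¹) = ζ := by
          rw [mul_comm ζ, ← mul_assoc, mul_inv_cancel, one_mul]
        rw [this, hgz]
      · intro η hη
        rw [hgm, rot_apply]
        apply hgo
        have h1 : dist (η * (ζ * (zs m)⁻¹)) ζ = dist η (zs m) := by
          have h2 : zs m * (ζ * (zs m)⁻¹) = ζ := by
            rw [mul_comm ζ, ← mul_assoc, mul_inv_cancel, one_mul]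
          calc dist (η * (ζ * (zs m)⁻¹)) ζ
              = dist (η * (ζ * (zs m)⁻¹)) (zs m * (ζ * (zs m)⁻¹)) := by rw [h2]
            _ = dist η (zs m) := dist_mul_right_circle _ _ _
        rw [h1]; exact hη
    have hb : Filter.Tendsto (fun m => ζ * (zs m)⁻¹) Filter.atTop (nhds 1) := by
      have := (tendsto_const_nhds (x := ζ)).mul hlim.inv
      rwa [mul_inv_cancel] at this
    have hrot : Filter.Tendsto (fun b => rot b g) (nhds 1) (nhds g) := by
      have : Filter.Tendsto (fun b => rot b g) (nhds 1) (nhds (rot 1 g)) := by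
        rw [Metric.tendsto_nhds_nhds]
        intro e he
        obtain ⟨δ, hδ, h⟩ := rot_tendsto g 1 (e / 2) (by positivity)
        refine ⟨δ, hδ, fun b hb => ?_⟩
        rw [dist_eq_norm]
        exact (h b hb).trans_lt (by linarith)
      rwa [rot_one] at this
    have hgml : Filter.Tendsto gm Filter.atTop (nhds g) := hrot.comp hb
    have hTg : Filter.Tendsto (fun m => ((T (gm m) : DA) : X)) Filter.atTop (nhds (T g : X)) :=
      ((continuous_subtype_val.comp T.continuous).tendsto g).comp hgml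
    have hev : Filter.Tendsto (fun m => (T (gm m) : X) (zs m)) Filter.atTop
        (nhds ((T g : X) ζ)) := by
      have hce : Continuous fun fx : X × Circle => fx.1 fx.2 := continuous_eval
      exact (hce.tendsto ((T g : X), ζ)).comp (hTg.prodMk_nhds hlim)
    exact le_of_tendsto hev.norm (Filter.Eventually.of_forall fun m => hzs m (gm m) (hgm_mem m))
  have hcover : (⋃ k, F k) = Set.univ := by
    rw [Set.eq_univ_iff_forall]
    intro ζ
    rw [Set.mem_iUnion]
    set ev : DA →L[ℂ] ℂ := (ContinuousMap.evalCLM ℂ ζ).comp DA.subtypeL with hev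
    have hevn : ‖ev.comp T‖ ≤ ‖T‖ := by
      refine ContinuousLinearMap.opNorm_le_bound _ (norm_nonneg T) fun g => ?_
      calc ‖(T g : X) ζ‖ ≤ ‖T g‖ := norm_apply_le _ _
        _ ≤ ‖T‖ * ‖g‖ := T.le_opNorm g
    obtain ⟨r, hr, h⟩ := hump (ev.comp T) ‖T‖ hevn ζ ε hε
    obtain ⟨k, hk⟩ := exists_nat_one_div_lt hr
    refine ⟨k, fun g hg => ?_⟩
    exact h g hg.1 hg.2.1 fun η hη => hg.2.2 η (hk.le.trans hη)
  obtain ⟨k, hk⟩ := nonempty_interior_of_iUnion_of_closed hclosed hcover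
  obtain ⟨ζ₀, hζ₀⟩ := hk
  obtain ⟨ρ, hρ, hball⟩ := Metric.isOpen_iff.1 isOpen_interior ζ₀ hζ₀
  exact ⟨ζ₀, ρ, hρ, k, fun ζ hζ g hg => interior_subset (hball hζ) g hg⟩

end Pool.Agent.MP_7a5dd1_an
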