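import Mathlib

set_option autoImplicit false

namespace Pool.Agent.MP_7a5dd1_an

open Filter Topology ZeroAtInfty

section

variable {E : Type*} [NormedAddCommGroup E] [NormedSpace ℂ E]

lemma c0_apply_le (f : C₀(ℕ, E)) (n : ℕ) : ‖f n‖ ≤ ‖f‖ :=
  f.toBCF.norm_coe_le_norm n

lemma c0_norm_le {f : C₀(ℕ, E)} {C : ℝ} (hC : 0 ≤ C) (h : ∀ n, ‖f n‖ ≤ C) : ‖f‖ ≤ C :=
  (BoundedContinuousFunction.norm_le hC).2 h

/-- A bounded family of operators tending strongly to zero defines a map into `c₀`. -/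
noncomputable def toC0 (V : ℕ → E →L[ℂ] E) (C : ℝ) (hC : 0 ≤ C) (hV : ∀ n g, ‖V n g‖ ≤ C * ‖g‖)
    (hV0 : ∀ g, Tendsto (fun n => V n g) atTop (𝓝 0)) : E →L[ℂ] C₀(ℕ, E) :=
  let L : E →ₗ[ℂ] C₀(ℕ, E) :=
    { toFun := fun g =>
        { toFun := fun n => V n g
          continuous_toFun := continuous_of_discreteTopology
          zero_at_infty' := by
            rw [Filter.cocompact_eq_cofinite, Nat.cofinite_eq_atTop]
            exact hV0 g }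
      map_add' := fun f g => ZeroAtInftyContinuousMap.ext (fun n => map_add (V n) f g)
      map_smul' := fun c f => ZeroAtInftyContinuousMap.ext (fun n => map_smul (V n) c f) }
  L.mkContinuous C (fun g => c0_norm_le (by positivity) (fun n => hV n g))

lemma toC0_apply (V : ℕ → E →L[ℂ] E) (C : ℝ) (hC : 0 ≤ C) (hV : ∀ n g, ‖V n g‖ ≤ C * ‖g‖)
    (hV0 : ∀ g, Tendsto (fun n => V n g) atTop (𝓝 0)) (g : E) (n : ℕ) :
    toC0 V C hC hV hV0 g n = V n g := rfl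

variable [CompleteSpace E]

lemma c0_summable (T : ℕ → E →L[ℂ] E)
    (hT : ∀ (f : ℕ → E) (F : Finset ℕ) (c : ℝ), 0 ≤ c → (∀ n ∈ F, ‖f n‖ ≤ c) →
      ‖∑ n ∈ F, T n (f n)‖ ≤ 2 * c) (f : C₀(ℕ, E)) : Summable (fun n => T n (f n)) := by
  rw [summable_iff_vanishing_norm]
  intro ε hε
  have h0 : Tendsto (fun n => f n) atTop (𝓝 0) := by
    have := f.zero_at_infty'
    rw [Filter.cocompact_eq_cofinite, Nat.cofinite_eq_atTop] at this
    exact this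
  rw [NormedAddGroup.tendsto_nhds_zero] at h0
  obtain ⟨N, hN⟩ := eventually_atTop.1 (h0 (ε / 4) (by positivity))
  refine ⟨Finset.range N, fun F hF => ?_⟩
  have hle : ∀ n ∈ F, ‖f n‖ ≤ ε / 4 := by
    intro n hn
    refine (hN n ?_).le
    by_contra hlt
    push Not at hlt
    exact Finset.disjoint_left.1 hF hn (Finset.mem_range.2 hlt)
  have := hT (fun n => f n) F (ε / 4) (by positivity) hle
  linarith

/-- The sum of a `c₀`-sequence through `T`. -/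
noncomputable def ofC0 (T : ℕ → E →L[ℂ] E)
    (hT : ∀ (f : ℕ → E) (F : Finset ℕ) (c : ℝ), 0 ≤ c → (∀ n ∈ F, ‖f n‖ ≤ c) →
      ‖∑ n ∈ F, T n (f n)‖ ≤ 2 * c) : C₀(ℕ, E) →L[ℂ] E :=
  let L : C₀(ℕ, E) →ₗ[ℂ] E :=
    { toFun := fun f => ∑' n, T n (f n)
      map_add' := fun f g => by
        rw [← (c0_summable T hT f).tsum_add (c0_summable T hT g)]
        exact tsum_congr (fun n => map_add (T n) (f n) (g n))
      map_smul' := fun c f => by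
        rw [RingHom.id_apply, ← (c0_summable T hT f).tsum_const_smul]
        exact tsum_congr (fun n => map_smul (T n) c (f n)) }
  L.mkContinuous 2 (fun f => by
      have h := (c0_summable T hT f).hasSum
      refine le_of_tendsto h.norm (Eventually.of_forall (fun F => ?_))
      exact hT (fun n => f n) F ‖f‖ (norm_nonneg _) (fun n _ => c0_apply_le f n))

lemma hasSum_ofC0 (T : ℕ → E →L[ℂ] E)
    (hT : ∀ (f : ℕ → E) (F : Finset ℕ) (c : ℝ), 0 ≤ c → (∀ n ∈ F, ‖f n‖ ≤ c) →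
      ‖∑ n ∈ F, T n (f n)‖ ≤ 2 * c) (f : C₀(ℕ, E)) :
    HasSum (fun n => T n (f n)) (ofC0 T hT f) :=
  (c0_summable T hT f).hasSum

theorem exists_JR_gen (T V : ℕ → E →L[ℂ] E)
    (hT : ∀ (f : ℕ → E) (F : Finset ℕ) (c : ℝ), 0 ≤ c → (∀ n ∈ F, ‖f n‖ ≤ c) →
      ‖∑ n ∈ F, T n (f n)‖ ≤ 2 * c)
    (C : ℝ) (hC : 0 ≤ C) (hV : ∀ n g, ‖V n g‖ ≤ C * ‖g‖)
    (hV0 : ∀ g, Tendsto (fun n => V n g) atTop (𝓝 0))
    (hVT : ∀ (f : ℕ → E) (n : ℕ) (F : Finset ℕ) (c : ℝ), 0 ≤ c → n ∈ F → (∀ m ∈ F, ‖f m‖ ≤ c) →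
      ‖V n (∑ m ∈ F, T m (f m)) - f n‖ ≤ 1 / 2 * c) :
    ∃ (J : C₀(ℕ, E) →L[ℂ] E) (R : E →L[ℂ] C₀(ℕ, E)),
      R.comp J = ContinuousLinearMap.id ℂ _ := by
  set J := ofC0 T hT with hJ
  set R := toC0 V C hC hV hV0 with hR
  set P : C₀(ℕ, E) →L[ℂ] C₀(ℕ, E) := R.comp J with hP
  have key : ∀ (f : C₀(ℕ, E)) (n : ℕ), ‖P f n - f n‖ ≤ 1 / 2 * ‖f‖ := by
    intro f n
    have h1 : P f n = V n (J f) := toC0_apply V C hC hV hV0 (J f) n
    rw [h1]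
    have hlim : Tendsto (fun F : Finset ℕ => ‖V n (∑ m ∈ F, T m (f m)) - f n‖) atTop
        (𝓝 ‖V n (J f) - f n‖) :=
      ((((V n).continuous.tendsto (J f)).comp (hasSum_ofC0 T hT f)).sub_const (f n)).norm
    refine le_of_tendsto hlim ?_
    filter_upwards [eventually_ge_atTop {n}] with F hnF
    exact hVT (fun m => f m) n F ‖f‖ (norm_nonneg _) (hnF (Finset.mem_singleton_self n))
      (fun m _ => c0_apply_le f m)
  have hnorm : ‖(1 : C₀(ℕ, E) →L[ℂ] C₀(ℕ, E)) - P‖ ≤ 1 / 2 := by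
    refine ContinuousLinearMap.opNorm_le_bound _ (by norm_num) (fun f => ?_)
    refine c0_norm_le (by positivity) (fun n => ?_)
    have h := key f n
    rw [norm_sub_rev] at h
    exact h
  have hlt : ‖(1 : C₀(ℕ, E) →L[ℂ] C₀(ℕ, E)) - P‖ < 1 := lt_of_le_of_lt hnorm (by norm_num)
  let u := Units.oneSub (R := C₀(ℕ, E) →L[ℂ] C₀(ℕ, E)) (1 - P) hlt
  have hu : (u : C₀(ℕ, E) →L[ℂ] C₀(ℕ, E)) = P := by
    rw [Units.val_oneSub, sub_sub_cancel]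
  refine ⟨J, ((u⁻¹ : (C₀(ℕ, E) →L[ℂ] C₀(ℕ, E))ˣ) : C₀(ℕ, E) →L[ℂ] C₀(ℕ, E)).comp R, ?_⟩
  rw [ContinuousLinearMap.comp_assoc, ← hP, ← hu]
  exact u.inv_mul

end

end Pool.Agent.MP_7a5dd1_an
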