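import Pool.Agent.Lib.MP_7a5dd1_an.Defs
import Pool.Agent.Lib.MP_7a5dd1_an.C0Gen

set_option autoImplicit false

namespace Pool.Agent.MP_7a5dd1_an

open Filter Topology ZeroAtInfty

namespace C0Sys

lemma mono_mem_DA (k : ℕ) : mono k ∈ DA :=
  Submodule.le_topologicalClosure _ (Submodule.subset_span ⟨k, rfl⟩)

lemma isClosed_DA : IsClosed (DA : Set C(Circle, ℂ)) := Submodule.isClosed_topologicalClosure _

lemma completeSpace_DA : CompleteSpace DA := isClosed_DA.completeSpace_coe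

/-- Evaluation of an element of `DA`. -/
noncomputable def evDA (z : Circle) : DA →L[ℂ] ℂ :=
  (ContinuousMap.evalCLM ℂ z).comp DA.subtypeL

lemma evDA_apply (z : Circle) (g : DA) : evDA z g = (g : C(Circle, ℂ)) z := rfl

lemma DA_norm_le {g : DA} {C : ℝ} (hC : 0 ≤ C) (h : ∀ z, ‖(g : C(Circle, ℂ)) z‖ ≤ C) :
    ‖g‖ ≤ C :=
  (ContinuousMap.norm_le _ hC).2 h

lemma DA_apply_le (g : DA) (z : Circle) : ‖(g : C(Circle, ℂ)) z‖ ≤ ‖g‖ :=
  ContinuousMap.norm_coe_le_norm (g : C(Circle, ℂ)) z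

/-- A arcSys of operators, almost disjointly concentrated on arcs. -/
structure ArcSys (T V : ℕ → DA →L[ℂ] DA) (b : ℕ → Circle → ℝ) (S : ℕ → Set Circle) : Prop where
  b_nonneg : ∀ n z, 0 ≤ b n z
  T_le : ∀ n (f : DA) z, ‖(T n f : C(Circle, ℂ)) z‖ ≤ b n z * ‖f‖
  b_sum : ∀ z (F : Finset ℕ), ∑ n ∈ F, b n z ≤ 2
  b_sum' : ∀ n, ∀ z ∈ S n, ∀ F : Finset ℕ, n ∉ F → ∑ m ∈ F, b m z ≤ 1 / 8
  V_le : ∀ n (g : DA) (a c : ℝ), 0 ≤ a → 0 ≤ c → (∀ z ∈ S n, ‖(g : C(Circle, ℂ)) z‖ ≤ a) →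
    (∀ z, ‖(g : C(Circle, ℂ)) z‖ ≤ c) → ‖V n g‖ ≤ 2 * a + c / 8
  VT : ∀ n f, V n (T n f) = f
  V_mono : ∀ k, ∀ᶠ n in atTop, V n ⟨mono k, mono_mem_DA k⟩ = 0

namespace ArcSys

variable {T V : ℕ → DA →L[ℂ] DA} {b : ℕ → Circle → ℝ} {S : ℕ → Set Circle}

lemma sum_apply_le (hs : ArcSys T V b S) (f : ℕ → DA) (F : Finset ℕ) {c : ℝ}
    (hc : ∀ n ∈ F, ‖f n‖ ≤ c) (z : Circle) :
    ‖((∑ n ∈ F, T n (f n) : DA) : C(Circle, ℂ)) z‖ ≤ (∑ n ∈ F, b n z) * c := by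
  rw [← evDA_apply, map_sum]
  refine (norm_sum_le _ _).trans ?_
  rw [Finset.sum_mul]
  refine Finset.sum_le_sum (fun n hn => ?_)
  rw [evDA_apply]
  exact (hs.T_le n (f n) z).trans (mul_le_mul_of_nonneg_left (hc n hn) (hs.b_nonneg n z))

lemma norm_sum_le' (hs : ArcSys T V b S) (f : ℕ → DA) (F : Finset ℕ) (c : ℝ) (hc0 : 0 ≤ c)
    (hc : ∀ n ∈ F, ‖f n‖ ≤ c) : ‖∑ n ∈ F, T n (f n)‖ ≤ 2 * c := by
  refine DA_norm_le (by positivity) (fun z => ?_)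
  refine (hs.sum_apply_le f F hc z).trans ?_
  exact mul_le_mul_of_nonneg_right (hs.b_sum z F) hc0

lemma V_le' (hs : ArcSys T V b S) (n : ℕ) (g : DA) : ‖V n g‖ ≤ 3 * ‖g‖ := by
  have := hs.V_le n g ‖g‖ ‖g‖ (norm_nonneg _) (norm_nonneg _) (fun z _ => DA_apply_le g z)
    (DA_apply_le g)
  have h0 := norm_nonneg g
  linarith

lemma V_poly (hs : ArcSys T V b S) (g : C(Circle, ℂ))
    (hg : g ∈ Submodule.span ℂ (Set.range mono)) :
    ∀ᶠ n in atTop, V n ⟨g, Submodule.le_topologicalClosure _ hg⟩ = 0 := by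
  induction hg using Submodule.span_induction with
  | mem x hx =>
    obtain ⟨k, rfl⟩ := hx
    exact hs.V_mono k
  | zero =>
    refine Eventually.of_forall (fun n => ?_)
    exact map_zero (V n)
  | add x y hx hy h1 h2 =>
    filter_upwards [h1, h2] with n hn1 hn2
    have h3 := map_add (V n) ⟨x, Submodule.le_topologicalClosure _ hx⟩
      ⟨y, Submodule.le_topologicalClosure _ hy⟩
    rw [hn1, hn2, add_zero] at h3
    exact h3
  | smul a x hx h1 =>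
    filter_upwards [h1] with n hn1
    have h3 := map_smul (V n) a ⟨x, Submodule.le_topologicalClosure _ hx⟩
    rw [hn1, smul_zero] at h3
    exact h3

lemma V_tendsto (hs : ArcSys T V b S) (g : DA) : Tendsto (fun n => V n g) atTop (𝓝 0) := by
  rw [NormedAddGroup.tendsto_nhds_zero]
  intro ε hε
  have hg : (g : C(Circle, ℂ)) ∈ closure ((Submodule.span ℂ (Set.range mono) :
      Submodule ℂ C(Circle, ℂ)) : Set C(Circle, ℂ)) := by
    rw [← Submodule.topologicalClosure_coe]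
    exact g.2
  rw [Metric.mem_closure_iff] at hg
  obtain ⟨h, hh, hd⟩ := hg (ε / 3) (by positivity)
  filter_upwards [hs.V_poly h hh] with n hn
  have h1 : V n g = V n (g - ⟨h, Submodule.le_topologicalClosure _ hh⟩) := by
    rw [map_sub, hn, sub_zero]
  rw [h1]
  refine (hs.V_le' n _).trans_lt ?_
  have h2 : ‖g - (⟨h, Submodule.le_topologicalClosure _ hh⟩ : DA)‖ = dist (g : C(Circle, ℂ)) h := by
    rw [dist_eq_norm]; rfl
  rw [h2]
  linarith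

lemma VT_le (hs : ArcSys T V b S) (f : ℕ → DA) (n : ℕ) (F : Finset ℕ) (c : ℝ) (hc : 0 ≤ c)
    (hn : n ∈ F) (hF : ∀ m ∈ F, ‖f m‖ ≤ c) :
    ‖V n (∑ m ∈ F, T m (f m)) - f n‖ ≤ 1 / 2 * c := by
  have h1 : V n (∑ m ∈ F, T m (f m)) - f n = V n (∑ m ∈ F.erase n, T m (f m)) := by
    rw [← Finset.add_sum_erase F (fun m => T m (f m)) hn, map_add, hs.VT, add_sub_cancel_left]
  rw [h1]
  have hF' : ∀ m ∈ F.erase n, ‖f m‖ ≤ c := fun m hm => hF m (Finset.mem_of_mem_erase hm)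
  have h3 := hs.V_le n (∑ m ∈ F.erase n, T m (f m)) (1 / 8 * c) (2 * c) (by positivity)
    (by positivity)
    (fun z hz => (hs.sum_apply_le f (F.erase n) hF' z).trans
      (mul_le_mul_of_nonneg_right (hs.b_sum' n z hz _ (Finset.notMem_erase n F)) hc))
    (fun z => (hs.sum_apply_le f (F.erase n) hF' z).trans
      (mul_le_mul_of_nonneg_right (hs.b_sum z _) hc))
  linarith

theorem exists_JR (hs : ArcSys T V b S) :
    ∃ (J : C₀(ℕ, DA) →L[ℂ] DA) (R : DA →L[ℂ] C₀(ℕ, DA)),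
      R.comp J = ContinuousLinearMap.id ℂ _ := by
  have := completeSpace_DA
  exact exists_JR_gen T V hs.norm_sum_le' 3 (by norm_num) hs.V_le' hs.V_tendsto hs.VT_le

end ArcSys

end C0Sys

end Pool.Agent.MP_7a5dd1_an
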