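import Pool.Agent.Lib.MP_7a5dd1_an.Factor
import Pool.Agent.Lib.MP_7a5dd1_an.C0Abs

set_option autoImplicit false

namespace Pool.Agent.MP_7a5dd1_an

open Filter Topology ZeroAtInfty Finset

namespace C0Sys

/-! ### The points and the arcs -/

/-- The centres of the arcs. -/
noncomputable def zt (n : ℕ) : Circle := Circle.exp (Real.arccos (1 - (1 / 2 : ℝ) ^ n))

lemma zt_re (n : ℕ) : ((zt n : Circle) : ℂ).re = 1 - (1 / 2 : ℝ) ^ n := by
  rw [zt, Circle.coe_exp, Complex.exp_ofReal_mul_I_re, Real.cos_arccos]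
  · have : (1 / 2 : ℝ) ^ n ≤ 1 := pow_le_one₀ (by norm_num) (by norm_num)
    linarith
  · have : (0 : ℝ) ≤ (1 / 2 : ℝ) ^ n := by positivity
    linarith

/-- The radii of the arcs. -/
noncomputable def dl (n : ℕ) : ℝ := (1 / 2 : ℝ) ^ (n + 2)

lemma dl_pos (n : ℕ) : 0 < dl n := by unfold dl; positivity

/-- The arcs. -/
def arc (n : ℕ) : Set Circle := {z | dist z (zt n) < dl n}

lemma re_sub_le (a b : Circle) : |(a : ℂ).re - (b : ℂ).re| ≤ dist a b := by
  rw [circle_dist, ← Complex.sub_re]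
  exact Complex.abs_re_le_norm _

lemma arc_disj_aux {n m : ℕ} (h : n < m) (z : Circle) (h1 : z ∈ arc n) (h2 : z ∈ arc m) :
    False := by
  have h1' : dist z (zt n) < dl n := h1
  have h2' : dist z (zt m) < dl m := h2
  have h3 := re_sub_le z (zt n)
  have h4 := re_sub_le z (zt m)
  rw [zt_re] at h3 h4
  have h5 : (1 / 2 : ℝ) ^ m ≤ (1 / 2 : ℝ) ^ (n + 1) :=
    pow_le_pow_of_le_one (by norm_num) (by norm_num) h
  have h6 : (1 / 2 : ℝ) ^ (n + 1) = (1 / 2 : ℝ) ^ n * (1 / 2) := pow_succ _ _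
  have h7 : dl n = (1 / 2 : ℝ) ^ n * (1 / 4) := by unfold dl; rw [pow_add]; norm_num
  have h8 : dl m = (1 / 2 : ℝ) ^ m * (1 / 4) := by unfold dl; rw [pow_add]; norm_num
  have h9 : 0 < (1 / 2 : ℝ) ^ n := by positivity
  have h10 := (abs_le.1 h3).1
  have h11 := (abs_le.1 h3).2
  have h12 := (abs_le.1 h4).1
  have h13 := (abs_le.1 h4).2
  nlinarith

lemma arc_disj {n m : ℕ} (h : n ≠ m) (z : Circle) (h1 : z ∈ arc n) : z ∉ arc m := by
  intro h2
  rcases lt_or_gt_of_ne h with h3 | h3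
  · exact arc_disj_aux h3 z h1 h2
  · exact arc_disj_aux h3 z h2 h1

/-! ### The exponents -/

lemma exists_m (n : ℕ) : ∃ m : ℕ, 0 < m ∧ q (dl n) ^ (2 * m) ≤ 1 / 16 * (1 / 2) ^ n ∧
    (4 * (m : ℝ)) * q (dl n) ^ (2 * m) ≤ 1 / 16 * (1 / 2) ^ n := by
  obtain ⟨m, h0, -, h1, h2⟩ := exists_pow_small (dl_pos n) (1 / 16 * (1 / 2) ^ n) (by positivity)
  exact ⟨m, h0, h1, h2⟩

/-- The exponents of the peak functions. -/
noncomputable def em (n : ℕ) : ℕ := (exists_m n).choose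

lemma em_pos (n : ℕ) : 0 < em n := (exists_m n).choose_spec.1
lemma em_small (n : ℕ) : q (dl n) ^ (2 * em n) ≤ 1 / 16 * (1 / 2) ^ n :=
  (exists_m n).choose_spec.2.1
lemma em_small' (n : ℕ) : (4 * (em n : ℝ)) * q (dl n) ^ (2 * em n) ≤ 1 / 16 * (1 / 2) ^ n :=
  (exists_m n).choose_spec.2.2

/-- The orders of the roots. -/
noncomputable def oN (n : ℕ) : ℕ := n + 2 * em n + 1

lemma oN_ne (n : ℕ) : oN n ≠ 0 := by unfold oN; omega

/-- The weight functions. -/
noncomputable def wt (n : ℕ) : X := mono n * pk (zt n) (2 * em n)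

lemma wt_span (n : ℕ) : wt n ∈ Submodule.span ℂ (mono '' {j | j < oN n}) :=
  mono_mul_pk_span _ _ _ _ (by unfold oN; omega)

lemma wt_mem (n : ℕ) : wt n ∈ DA := mul_mem_DA (mono_mem n) (pk_mem _ _)

lemma norm_mono (n : ℕ) (z : Circle) : ‖mono n z‖ = 1 := by
  rw [mono_apply, norm_pow, Circle.norm_coe, one_pow]

lemma norm_wt (n : ℕ) (z : Circle) : ‖wt n z‖ = ‖pk (zt n) (2 * em n) z‖ := by
  rw [wt, ContinuousMap.mul_apply, norm_mul, norm_mono, one_mul]

lemma star_wt_mul_wt (n : ℕ) :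
    star (wt n) * wt n = star (pk (zt n) (2 * em n)) * pk (zt n) (2 * em n) := by
  ext z
  rw [wt, ContinuousMap.mul_apply, ContinuousMap.star_apply, ContinuousMap.mul_apply,
    ContinuousMap.mul_apply, ContinuousMap.star_apply, star_mul]
  have h : star (mono n z) * mono n z = 1 := by
    have h1 := Complex.conj_mul' (mono n z)
    rw [norm_mono] at h1
    simpa using h1
  calc star (pk (zt n) (2 * em n) z) * star (mono n z) * (mono n z * pk (zt n) (2 * em n) z)
      = star (pk (zt n) (2 * em n) z) * (star (mono n z) * mono n z) *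
          pk (zt n) (2 * em n) z := by ring
    _ = _ := by rw [h, mul_one]

/-! ### The operators -/

lemma exists_Vn (n : ℕ) : ∃ V : DA →L[ℂ] DA, ∀ (g : DA) (z : Circle),
    ((V g : DA) : X) (z ^ oN n) = avg (oN n) (star (wt n) * (g : X)) z :=
  exists_V (oN n) (oN_ne n) (wt n) (wt_span n)

/-- The unnormalised operators. -/
noncomputable def Vr (n : ℕ) : DA →L[ℂ] DA := (exists_Vn n).choose

lemma Vr_apply (n : ℕ) (g : DA) (z : Circle) :
    ((Vr n g : DA) : X) (z ^ oN n) = avg (oN n) (star (wt n) * (g : X)) z :=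
  (exists_Vn n).choose_spec g z

/-- The normalised operators. -/
noncomputable def Vn (n : ℕ) : DA →L[ℂ] DA := ((cm (2 * em n) : ℂ)⁻¹) • Vr n

lemma Vn_apply (n : ℕ) (g : DA) (z : Circle) :
    ((Vn n g : DA) : X) (z ^ oN n) =
      (cm (2 * em n) : ℂ)⁻¹ * avg (oN n) (star (wt n) * (g : X)) z := by
  rw [← Vr_apply]; rfl

/-- The embeddings. -/
noncomputable def Tn (n : ℕ) : DA →L[ℂ] DA := (mulD ⟨wt n, wt_mem n⟩).comp (pw (oN n))

lemma Tn_apply (n : ℕ) (f : DA) (z : Circle) :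
    ((Tn n f : DA) : X) z = wt n z * (f : X) (z ^ oN n) := rfl

lemma DA_ext_pow (n : ℕ) {f g : DA} (h : ∀ z : Circle, (f : X) (z ^ oN n) = (g : X) (z ^ oN n)) :
    f = g := by
  apply Subtype.ext
  ext w
  obtain ⟨z, rfl⟩ := exists_pow_eq (oN n) (oN_ne n) w
  exact h z

lemma VnTn (n : ℕ) (f : DA) : Vn n (Tn n f) = f := by
  refine DA_ext_pow n (fun z => ?_)
  rw [Vn_apply]
  have h1 : star (wt n) * ((Tn n f : DA) : X) =
      (star (pk (zt n) (2 * em n)) * pk (zt n) (2 * em n)) * compX (powMap (oN n)) (f : X) := by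
    rw [← star_wt_mul_wt, mul_assoc]
    rfl
  have hinv : ∀ j, compX (powMap (oN n)) (f : X) (z * omega (oN n) ^ j) =
      compX (powMap (oN n)) (f : X) z := by
    intro j
    rw [compX_apply, compX_apply, powMap_apply, powMap_apply, mul_pow,
      omega_pow_pow _ (oN_ne n), mul_one]
  rw [h1, avg_mul_of_invariant _ _ _ _ hinv, avg_pk _ _ (by unfold oN; omega), compX_apply,
    powMap_apply, ← mul_assoc, inv_mul_cancel₀, one_mul]
  exact_mod_cast (cm_pos _).ne'

lemma star_mono_mul_zmono (j : ℕ) (k : ℤ) : star (mono j) * zmono k = zmono (k - j) := by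
  ext z
  rw [ContinuousMap.mul_apply, ContinuousMap.star_apply, mono_apply, zmono_apply, zmono_apply,
    zpow_sub, Circle.coe_mul, Circle.coe_inv_eq_conj]
  simp [mul_comm]

lemma avg_star_zero (N M : ℕ) (hN : N ≠ 0) (l : ℤ) (h1 : l < 0) (h2 : (M : ℤ) - l < N)
    (x : X) (hx : x ∈ Submodule.span ℂ (mono '' {j | j < M + 1})) :
    avg N (star x * zmono l) = 0 := by
  induction hx using Submodule.span_induction with
  | mem x hx =>
    obtain ⟨j, hj, rfl⟩ := hx
    have hj' : j < M + 1 := hj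
    rw [star_mono_mul_zmono]
    refine avg_zmono_of_not_dvd N hN _ (fun hd => ?_)
    have := Int.eq_zero_of_abs_lt_dvd hd (by rw [abs_lt]; constructor <;> omega)
    omega
  | zero => simp
  | add x y hx hy ihx ihy =>
    rw [star_add, add_mul, map_add, ihx, ihy, add_zero]
  | smul c x hx ih =>
    rw [star_smul, smul_mul_assoc, map_smul, ih, smul_zero]

lemma Vn_mono (k n : ℕ) (h : k < n) : Vn n ⟨mono k, mono_mem_DA k⟩ = 0 := by
  refine DA_ext_pow n (fun z => ?_)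
  rw [Vn_apply]
  have h1 : star (wt n) * mono k = star (pk (zt n) (2 * em n)) * zmono ((k : ℤ) - n) := by
    rw [wt, star_mul, mul_assoc, star_mono_mul_mono]
  have h2 : avg (oN n) (star (wt n) * mono k) = 0 := by
    rw [h1]
    refine avg_star_zero (oN n) (2 * em n) (oN_ne n) _ (by omega) ?_ _
      (pk_span _ _ _ (Nat.lt_succ_self _))
    unfold oN
    push_cast
    omega
  change (cm (2 * em n) : ℂ)⁻¹ * avg (oN n) (star (wt n) * mono k) z = 0
  rw [h2]
  simp

lemma Vn_le (n : ℕ) (g : DA) (a c : ℝ) (ha : 0 ≤ a) (hc : 0 ≤ c)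
    (h1 : ∀ z ∈ arc n, ‖(g : X) z‖ ≤ a) (h2 : ∀ z, ‖(g : X) z‖ ≤ c) :
    ‖Vn n g‖ ≤ 2 * a + c / 8 := by
  refine (norm_DA_le _ (by positivity)).2 fun w => ?_
  obtain ⟨z, rfl⟩ := exists_pow_eq (oN n) (oN_ne n) w
  rw [Vn_apply, norm_mul, norm_inv, Complex.norm_real, Real.norm_of_nonneg (cm_pos _).le]
  have h3 := avg_bound (oN n) (em n) (by unfold oN; omega) (zt n) z (g : X) (wt n) (dl n) a c
    (dl_pos n).le ha hc (norm_wt n) (fun y hy => h1 y hy) (fun y _ => h2 y)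
  have hcm := cm_pos (2 * em n)
  have h4 := cm_le (em n)
  have h5 := cm_ge (2 * em n) (by have := em_pos n; omega)
  have h6 := em_small' n
  have hq : 0 ≤ q (dl n) ^ (2 * em n) := pow_nonneg (q_nonneg _) _
  have hem : (0 : ℝ) < em n := by exact_mod_cast em_pos n
  -- `q^(2m) ≤ cm (2m) / 16`
  have h7 : q (dl n) ^ (2 * em n) ≤ cm (2 * em n) * (1 / 8) := by
    have h8 : (1 / 2 : ℝ) ^ n ≤ 1 := pow_le_one₀ (by norm_num) (by norm_num)
    have h9 : 1 / (4 * (em n : ℝ)) ≤ cm (2 * em n) := by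
      refine le_trans (le_of_eq ?_) h5
      push_cast
      ring
    have h10 : q (dl n) ^ (2 * em n) ≤ 1 / (4 * (em n : ℝ)) * (1 / 8) := by
      rw [div_mul_eq_mul_div, one_mul, le_div_iff₀ (by positivity)]
      linarith
    refine h10.trans ?_
    exact mul_le_mul_of_nonneg_right h9 (by norm_num)
  rw [inv_mul_le_iff₀ hcm]
  have h11 : a * cm (em n) ≤ a * (2 * cm (2 * em n)) := mul_le_mul_of_nonneg_left h4 ha
  have h12 : c * q (dl n) ^ (2 * em n) ≤ c * (cm (2 * em n) * (1 / 8)) :=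
    mul_le_mul_of_nonneg_left h7 hc
  linarith

/-! ### The arcSys -/

lemma sum_small (F : Finset ℕ) : ∑ n ∈ F, (1 / 16 * (1 / 2 : ℝ) ^ n) ≤ 1 / 8 := by
  rw [← Finset.mul_sum]
  have h1 : ∑ n ∈ F, (1 / 2 : ℝ) ^ n ≤ ∑' n : ℕ, (1 / 2 : ℝ) ^ n :=
    Summable.sum_le_tsum F (fun _ _ => by positivity) summable_geometric_two
  rw [tsum_geometric_two] at h1
  linarith

lemma off_le (n : ℕ) (z : Circle) (h : z ∉ arc n) :
    ‖pk (zt n) (2 * em n) z‖ ≤ 1 / 16 * (1 / 2) ^ n := by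
  have h' : dl n ≤ dist z (zt n) := not_lt.1 h
  exact (norm_pk_off _ _ _ _ (dl_pos n).le h').trans (em_small n)

theorem arcSys : ArcSys Tn Vn (fun n z => ‖pk (zt n) (2 * em n) z‖) arc where
  b_nonneg := fun n z => norm_nonneg _
  T_le := fun n f z => by
    change ‖wt n z * (f : X) (z ^ oN n)‖ ≤ _
    rw [norm_mul, norm_wt]
    exact mul_le_mul_of_nonneg_left (norm_apply_le f _) (norm_nonneg _)
  b_sum := fun z F => by
    by_cases h : ∃ n ∈ F, z ∈ arc n
    · obtain ⟨n, hn, hz⟩ := h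
      rw [← Finset.add_sum_erase F _ hn]
      have h1 := norm_pk_le_one (zt n) (2 * em n) z
      have h2 : ∑ m ∈ F.erase n, ‖pk (zt m) (2 * em m) z‖ ≤ ∑ m ∈ F.erase n, 1 / 16 * (1 / 2) ^ m :=
        Finset.sum_le_sum (fun m hm => off_le m z (arc_disj (Finset.ne_of_mem_erase hm).symm z hz))
      have h3 := sum_small (F.erase n)
      linarith
    · push Not at h
      have h2 : ∑ m ∈ F, ‖pk (zt m) (2 * em m) z‖ ≤ ∑ m ∈ F, 1 / 16 * (1 / 2) ^ m :=
        Finset.sum_le_sum (fun m hm => off_le m z (h m hm))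
      have h3 := sum_small F
      linarith
  b_sum' := fun n z hz F hF => by
    have h2 : ∑ m ∈ F, ‖pk (zt m) (2 * em m) z‖ ≤ ∑ m ∈ F, 1 / 16 * (1 / 2) ^ m :=
      Finset.sum_le_sum (fun m hm => off_le m z (arc_disj (by rintro rfl; exact hF hm) z hz))
    exact h2.trans (sum_small F)
  V_le := Vn_le
  VT := VnTn
  V_mono := fun k => by
    filter_upwards [eventually_gt_atTop k] with n hn
    exact Vn_mono k n hn

end C0Sys

/-- The `c₀`-sum of the disc algebra is complemented in the disc algebra. -/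
theorem c0_complemented :
    ∃ (J : C₀(ℕ, DA) →L[ℂ] DA) (R : DA →L[ℂ] C₀(ℕ, DA)),
      R.comp J = ContinuousLinearMap.id ℂ _ :=
  C0Sys.arcSys.exists_JR

end Pool.Agent.MP_7a5dd1_an
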