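import Mathlib

/-!
Pelczynski decomposition for Banach spaces containing a complemented copy of their own
`c_0`-sum.
-/

set_option autoImplicit false

open Filter Topology

namespace Pool.Agent.MP_7a5dd1_an

/-- The `c_0`-sum of countably many copies of `F`. -/
abbrev SS (F : Type*) [NormedAddCommGroup F] : Type _ := ZeroAtInftyContinuousMap ℕ F

section basic

variable {F : Type*} [NormedAddCommGroup F]

theorem tendsto_iff_finite (f : ℕ → F) :
    Tendsto f (cocompact ℕ) (𝓝 0) ↔ ∀ ε : ℝ, 0 < ε → {n | ε ≤ ‖f n‖}.Finite := by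
  rw [Filter.cocompact_eq_cofinite, tendsto_zero_iff_norm_tendsto_zero]
  constructor
  · intro h ε hε
    have h1 := h (Iio_mem_nhds hε)
    rw [Filter.mem_map, Filter.mem_cofinite] at h1
    refine h1.subset ?_
    intro n hn
    simp only [Set.mem_compl_iff, Set.mem_preimage, Set.mem_Iio, not_lt]
    exact hn
  · intro h
    rw [Metric.tendsto_nhds]
    intro ε hε
    have h1 := h ε hε
    rw [Filter.eventually_cofinite]
    refine h1.subset ?_
    intro n hn
    simp only [Set.mem_ofPred_eq, dist_zero_right, norm_norm, not_lt] at hn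
    exact hn

/-- Build an element of the `c_0`-sum. -/
def mkS (f : ℕ → F) (h : ∀ ε : ℝ, 0 < ε → {n | ε ≤ ‖f n‖}.Finite) : SS F where
  toFun := f
  continuous_toFun := continuous_of_discreteTopology
  zero_at_infty' := (tendsto_iff_finite f).2 h

@[simp] theorem mkS_apply (f : ℕ → F) (h : ∀ ε : ℝ, 0 < ε → {n | ε ≤ ‖f n‖}.Finite) (n : ℕ) :
    mkS f h n = f n := rfl

theorem finite_of_mem (x : SS F) (ε : ℝ) (hε : 0 < ε) : {n | ε ≤ ‖x n‖}.Finite :=
  (tendsto_iff_finite x).1 x.zero_at_infty' ε hε

theorem ssNorm_apply_le (x : SS F) (n : ℕ) : ‖x n‖ ≤ ‖x‖ := by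
  rw [← ZeroAtInftyContinuousMap.norm_toBCF_eq_norm]
  exact x.toBCF.norm_coe_le_norm n

theorem norm_le_of (x : SS F) {C : ℝ} (hC : 0 ≤ C) (h : ∀ n, ‖x n‖ ≤ C) : ‖x‖ ≤ C := by
  rw [← ZeroAtInftyContinuousMap.norm_toBCF_eq_norm]
  exact (BoundedContinuousFunction.norm_le hC).2 h

end basic

section equivs

variable {F G : Type*} [NormedAddCommGroup F] [NormedSpace ℂ F]
  [NormedAddCommGroup G] [NormedSpace ℂ G]

/-- Functoriality of the `c_0`-sum. -/
noncomputable def mapS (A : F →L[ℂ] G) : SS F →ₗ[ℂ] SS G where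
  toFun x := mkS (fun n => A (x n)) (by
    intro ε hε
    have hM : 0 < ‖A‖ + 1 := by positivity
    refine (finite_of_mem x (ε / (‖A‖ + 1)) (by positivity)).subset ?_
    intro n hn
    simp only [Set.mem_ofPred_eq] at hn ⊢
    rw [div_le_iff₀ hM]
    calc ε ≤ ‖A (x n)‖ := hn
      _ ≤ ‖A‖ * ‖x n‖ := A.le_opNorm _
      _ ≤ ‖x n‖ * (‖A‖ + 1) := by nlinarith [norm_nonneg (x n), norm_nonneg A])
  map_add' x y := by ext n; simp
  map_smul' c x := by ext n; simp

@[simp] theorem mapS_apply (A : F →L[ℂ] G) (x : SS F) (n : ℕ) : mapS A x n = A (x n) := rfl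

theorem norm_mapS_le (A : F →L[ℂ] G) (x : SS F) : ‖mapS A x‖ ≤ ‖A‖ * ‖x‖ := by
  refine norm_le_of _ (by positivity) fun n => ?_
  calc ‖A (x n)‖ ≤ ‖A‖ * ‖x n‖ := A.le_opNorm _
    _ ≤ ‖A‖ * ‖x‖ := by gcongr; exact ssNorm_apply_le x n

/-- Isomorphic spaces have isomorphic `c_0`-sums. -/
noncomputable def congrS (e : F ≃L[ℂ] G) : SS F ≃L[ℂ] SS G :=
  LinearEquiv.toContinuousLinearEquivOfBounds
    { mapS (e : F →L[ℂ] G) with
      invFun := mapS (e.symm : G →L[ℂ] F)
      left_inv := fun x => by ext n; simp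
      right_inv := fun x => by ext n; simp }
    ‖(e : F →L[ℂ] G)‖ ‖(e.symm : G →L[ℂ] F)‖ (norm_mapS_le _) (norm_mapS_le _)

/-- The `c_0`-sum of a product. -/
noncomputable def prodS : SS (F × G) ≃L[ℂ] SS F × SS G :=
  LinearEquiv.toContinuousLinearEquivOfBounds
    { toFun := fun x => (mapS (ContinuousLinearMap.fst ℂ F G) x,
        mapS (ContinuousLinearMap.snd ℂ F G) x)
      map_add' := fun x y => by simp
      map_smul' := fun c x => by simp
      invFun := fun p => mkS (fun n => (p.1 n, p.2 n)) (by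
        intro ε hε
        refine ((finite_of_mem p.1 ε hε).union (finite_of_mem p.2 ε hε)).subset ?_
        intro n hn
        simp only [Set.mem_ofPred_eq, Set.mem_union, Prod.norm_def] at hn ⊢
        exact le_max_iff.1 hn)
      left_inv := fun x => by ext n <;> simp
      right_inv := fun p => by
        refine Prod.ext ?_ ?_
        · ext n; simp
        · ext n; simp }
    1 1
    (fun x => by
      rw [one_mul]
      refine max_le ?_ ?_
      · refine norm_le_of _ (norm_nonneg _) fun n => ?_
        exact (norm_fst_le (x n)).trans (ssNorm_apply_le x n)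
      · refine norm_le_of _ (norm_nonneg _) fun n => ?_
        exact (norm_snd_le (x n)).trans (ssNorm_apply_le x n))
    (fun p => by
      rw [one_mul]
      refine norm_le_of _ (norm_nonneg _) fun n => ?_
      exact max_le ((ssNorm_apply_le p.1 n).trans (norm_fst_le p))
        ((ssNorm_apply_le p.2 n).trans (norm_snd_le p)))

/-- Splitting off the first summand. -/
noncomputable def consS : SS F ≃L[ℂ] F × SS F :=
  LinearEquiv.toContinuousLinearEquivOfBounds
    { toFun := fun x => (x 0, mkS (fun n => x (n + 1)) (by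
        intro ε hε
        have h1 : ((fun n : ℕ => n + 1) ⁻¹' {n | ε ≤ ‖x n‖}).Finite :=
          (finite_of_mem x ε hε).preimage (add_left_injective 1).injOn
        exact h1.subset fun n hn => hn))
      map_add' := fun x y => by
        refine Prod.ext ?_ ?_
        · simp
        · ext n; simp
      map_smul' := fun c x => by
        refine Prod.ext ?_ ?_
        · simp
        · ext n; simp
      invFun := fun p => mkS (fun n => Nat.casesOn n p.1 (fun k => p.2 k)) (by
        intro ε hε
        refine (((finite_of_mem p.2 ε hε).image (fun k => k + 1)).insert 0).subset ?_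
        intro n hn
        rcases n with _ | k
        · exact Set.mem_insert _ _
        · exact Set.mem_insert_of_mem _ ⟨k, hn, rfl⟩)
      left_inv := fun x => by
        ext n
        rcases n with _ | k <;> simp
      right_inv := fun p => by
        refine Prod.ext ?_ ?_
        · simp
        · ext n; simp }
    1 1
    (fun x => by
      rw [one_mul]
      refine max_le (ssNorm_apply_le x 0) ?_
      refine norm_le_of _ (norm_nonneg _) fun n => ?_
      exact ssNorm_apply_le x (n + 1))
    (fun p => by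
      rw [one_mul]
      refine norm_le_of _ (norm_nonneg _) fun n => ?_
      rcases n with _ | k
      · exact norm_fst_le p
      · exact (ssNorm_apply_le p.2 k).trans (norm_snd_le p))

omit [NormedSpace ℂ F] in
theorem finite_unpair (x : SS (SS F)) (ε : ℝ) (hε : 0 < ε) :
    {k | ε ≤ ‖x (Nat.unpair k).1 (Nat.unpair k).2‖}.Finite := by
  have h1 : (⋃ n ∈ {n | ε ≤ ‖x n‖}, (fun m => Nat.pair n m) '' {m | ε ≤ ‖x n m‖}).Finite :=
    (finite_of_mem x ε hε).biUnion fun n _ => (finite_of_mem (x n) ε hε).image _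
  refine h1.subset ?_
  intro k hk
  simp only [Set.mem_ofPred_eq] at hk
  simp only [Set.mem_iUnion, Set.mem_image, Set.mem_ofPred_eq]
  exact ⟨(Nat.unpair k).1, hk.trans (ssNorm_apply_le _ _), (Nat.unpair k).2, hk,
    Nat.pair_unpair k⟩

omit [NormedSpace ℂ F] in
theorem finite_pair (y : SS F) (n : ℕ) (ε : ℝ) (hε : 0 < ε) :
    {m | ε ≤ ‖y (Nat.pair n m)‖}.Finite := by
  have h1 : ((fun m : ℕ => Nat.pair n m) ⁻¹' {k | ε ≤ ‖y k‖}).Finite := by
    refine (finite_of_mem y ε hε).preimage ?_
    intro a _ b _ hab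
    exact (Nat.pair_eq_pair.1 hab).2
  exact h1.subset fun m hm => hm

omit [NormedSpace ℂ F] in
theorem finite_pair' (y : SS F) (ε : ℝ) (hε : 0 < ε) :
    {n | ε ≤ ‖mkS (fun m => y (Nat.pair n m)) (finite_pair y n)‖}.Finite := by
  have h1 := (finite_of_mem y (ε / 2) (by positivity)).image (fun k => (Nat.unpair k).1)
  refine h1.subset ?_
  intro n hn
  by_contra hcon
  have h2 : ∀ m, ‖y (Nat.pair n m)‖ ≤ ε / 2 := by
    intro m
    by_contra h3
    refine hcon ⟨Nat.pair n m, ?_, ?_⟩
    · exact (not_le.1 h3).le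
    · simp
  have h4 : ε ≤ ε / 2 :=
    le_trans hn (norm_le_of _ (by positivity) h2)
  linarith

/-- The `c_0`-sum of `c_0`-sums. -/
noncomputable def joinS : SS (SS F) ≃L[ℂ] SS F :=
  LinearEquiv.toContinuousLinearEquivOfBounds
    { toFun := fun x => mkS (fun k => x (Nat.unpair k).1 (Nat.unpair k).2) (finite_unpair x)
      map_add' := fun x y => by ext k; simp
      map_smul' := fun c x => by ext k; simp
      invFun := fun y => mkS (fun n => mkS (fun m => y (Nat.pair n m)) (finite_pair y n))
        (finite_pair' y)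
      left_inv := fun x => by
        ext n m
        simp
      right_inv := fun y => by
        ext k
        simp }
    1 1
    (fun x => by
      refine le_of_le_of_eq ?_ (one_mul _).symm
      refine norm_le_of _ (norm_nonneg _) fun k => ?_
      exact (ssNorm_apply_le (x _) _).trans (ssNorm_apply_le x _))
    (fun y => by
      refine le_of_le_of_eq ?_ (one_mul _).symm
      refine norm_le_of _ (norm_nonneg _) fun n => ?_
      refine norm_le_of _ (norm_nonneg _) fun m => ?_
      exact ssNorm_apply_le y _)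

end equivs

/-- **Pelczynski decomposition**: a Banach space `E` containing a complemented copy of its own
`c_0`-sum is isomorphic to the range of every projection through which its identity
factors. -/
theorem decomposition {E : Type*} [NormedAddCommGroup E] [NormedSpace ℂ E] [CompleteSpace E]
    (J : ZeroAtInftyContinuousMap ℕ E →L[ℂ] E) (R : E →L[ℂ] ZeroAtInftyContinuousMap ℕ E)
    (hRJ : R.comp J = ContinuousLinearMap.id ℂ _) (P : E →L[ℂ] E) (hP : P.comp P = P)
    (U V : E →L[ℂ] E) (hUV : V.comp (P.comp U) = ContinuousLinearMap.id ℂ E) :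
    Nonempty (LinearMap.range P.toLinearMap ≃L[ℂ] E) := by
  -- `E ≃ X × W1` with `X = SS E`
  have hRJ' : Function.RightInverse J R := fun x => by
    have := congrArg (fun A : SS E →L[ℂ] SS E => A x) hRJ
    simpa using this
  let e1 : E ≃L[ℂ] SS E × R.ker := ContinuousLinearEquiv.equivOfRightInverse R J hRJ'
  -- `E ≃ SS E`
  let e2 : SS E ≃L[ℂ] SS E × SS (SS E) := (joinS (F := E)).symm.trans consS
  let e2' : SS E ≃L[ℂ] SS E × SS E := e2.trans ((ContinuousLinearEquiv.refl ℂ _).prodCongr joinS)
  let e3 : E ≃L[ℂ] SS E := e1.trans <|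
    (e2'.prodCongr (ContinuousLinearEquiv.refl ℂ R.ker)).trans <|
    (ContinuousLinearEquiv.prodAssoc ℂ (SS E) (SS E) R.ker).trans <|
    ((ContinuousLinearEquiv.refl ℂ (SS E)).prodCongr e1.symm).trans <|
    (ContinuousLinearEquiv.prodComm ℂ (SS E) E).trans consS.symm
  -- `E ≃ E × E`
  let e4 : E ≃L[ℂ] E × E := e3.trans <| consS.trans <|
    (ContinuousLinearEquiv.refl ℂ E).prodCongr e3.symm
  -- the complemented subspace
  let Y := LinearMap.range P.toLinearMap
  let Z := LinearMap.ker P.toLinearMap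
  have hPP : ∀ x, P (P x) = P x := fun x => by
    have := congrArg (fun A : E →L[ℂ] E => A x) hP
    simpa using this
  let PY : E →L[ℂ] Y := P.codRestrict Y (fun x => ⟨x, rfl⟩)
  have hPY : Function.RightInverse Y.subtypeL PY := by
    rintro ⟨y, x, rfl⟩
    ext
    exact hPP x
  let e5 : E ≃L[ℂ] Y × PY.ker := ContinuousLinearEquiv.equivOfRightInverse PY Y.subtypeL hPY
  -- `E ≃ Y × E`
  let e6 : E ≃L[ℂ] Y × E := e3.trans <| (congrS e5).trans <| prodS.trans <|
    (consS.prodCongr (ContinuousLinearEquiv.refl ℂ (SS PY.ker))).trans <|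
    (ContinuousLinearEquiv.prodAssoc ℂ Y (SS Y) (SS PY.ker)).trans <|
    (ContinuousLinearEquiv.refl ℂ Y).prodCongr
      (prodS.symm.trans ((congrS e5.symm).trans e3.symm))
  -- `Y ≃ E × W`
  let VY : Y →L[ℂ] E := V.comp Y.subtypeL
  let UY : E →L[ℂ] Y := PY.comp U
  have hVU : Function.RightInverse UY VY := fun x => by
    have h0 := congrArg (fun A : E →L[ℂ] E => A x) hUV
    have h1 : V (P (U x)) = x := by simpa using h0
    exact h1
  let e7 : Y ≃L[ℂ] E × VY.ker := ContinuousLinearEquiv.equivOfRightInverse VY UY hVU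
  -- `Y ≃ E × Y ≃ E`
  exact ⟨e7.trans <| (e4.prodCongr (ContinuousLinearEquiv.refl ℂ VY.ker)).trans <|
    (ContinuousLinearEquiv.prodAssoc ℂ E E VY.ker).trans <|
    ((ContinuousLinearEquiv.refl ℂ E).prodCongr e7.symm).trans <|
    (ContinuousLinearEquiv.prodComm ℂ E Y).trans e6.symm⟩

end Pool.Agent.MP_7a5dd1_an
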