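import Mathlib

set_option autoImplicit false

namespace Pool.Agent.MP_7a5dd1_an

/-- The monomial `z^n` as a continuous function on the unit circle. -/
noncomputable def mono (n : ℕ) : C(Circle, ℂ) := ⟨fun z => (z : ℂ) ^ n, by fun_prop⟩

/-- The disc algebra, seen on the circle: the closure of the analytic polynomials in
the space of continuous functions on the circle. -/
noncomputable def DA : Submodule ℂ C(Circle, ℂ) :=
  (Submodule.span ℂ (Set.range mono)).topologicalClosure

end Pool.Agent.MP_7a5dd1_an
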