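import Pool.Agent.Lib.MP_7a5dd1_an.Peak

set_option autoImplicit false

namespace Pool.Agent.MP_7a5dd1_an

open Metric Finset

lemma exists_inv_ring {R : Type*} [NormedRing R] [NormedAlgebra ℂ R] [CompleteSpace R]
    (S : R) (c : ℂ) (hc : 1 / 2 ≤ ‖c‖) (hS : ‖S - c • (1 : R)‖ ≤ 1 / 4) :
    ∃ W : R, W * S = 1 := by
  have hc0 : c ≠ 0 := by
    rintro rfl
    norm_num at hc
  set D : R := -(c⁻¹ • (S - c • (1 : R))) with hD
  have hDn : ‖D‖ < 1 := by
    rw [hD, norm_neg, norm_smul, norm_inv]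
    have h1 : ‖c‖⁻¹ ≤ 2 := by
      rw [inv_le_comm₀ (by linarith) (by norm_num)]
      linarith
    calc ‖c‖⁻¹ * ‖S - c • (1 : R)‖ ≤ 2 * (1 / 4) := by gcongr
      _ < 1 := by norm_num
  have hS' : (1 : R) - D = c⁻¹ • S := by
    rw [hD, sub_neg_eq_add, smul_sub, smul_smul, inv_mul_cancel₀ hc0, one_smul]
    abel
  refine ⟨c⁻¹ • ((Units.oneSub D hDn)⁻¹ : Rˣ).val, ?_⟩
  have h2 : ((Units.oneSub D hDn)⁻¹ : Rˣ).val * (c⁻¹ • S) = 1 := by
    rw [← hS', ← Units.val_oneSub D hDn]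
    exact Units.inv_mul _
  rw [← h2, smul_mul_assoc, mul_smul_comm]

/-- Neumann series: an operator close to a nonzero multiple of the identity is invertible,
so the identity factors. -/
lemma exists_inv (S : DA →L[ℂ] DA) (c : ℂ) (hc : 1 / 2 ≤ ‖c‖)
    (hS : ‖S - c • ContinuousLinearMap.id ℂ DA‖ ≤ 1 / 4) :
    ∃ W : DA →L[ℂ] DA, W.comp S = ContinuousLinearMap.id ℂ DA :=
  exists_inv_ring S c hc hS

lemma rot_pkD (a b : Circle) (M : ℕ) : rot (a * b⁻¹) (pkD a M) = pkD b M := by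
  apply Subtype.ext
  ext z
  rw [rot_apply, pkD_coe, pkD_coe, pk_apply, pk_apply]
  congr 3
  rw [← Circle.coe_mul, ← Circle.coe_mul]
  congr 1
  rw [mul_comm a, ← mul_assoc z, mul_comm _ a, ← mul_assoc, inv_mul_cancel, one_mul, mul_comm]

/-- Continuity of `ζ ↦ T (pk ζ) ζ`. -/
lemma diag_cont (T : DA →L[ℂ] DA) (M : ℕ) (a : Circle) (ε : ℝ) (hε : 0 < ε) :
    ∃ δ : ℝ, 0 < δ ∧ ∀ b : Circle, dist b a < δ →
      ‖(T (pkD b M) : X) b - (T (pkD a M) : X) a‖ ≤ ε := by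
  have hrot : Filter.Tendsto (fun b => rot b (pkD a M)) (nhds 1) (nhds (pkD a M)) := by
    have : Filter.Tendsto (fun b => rot b (pkD a M)) (nhds 1) (nhds (rot 1 (pkD a M))) := by
      rw [Metric.tendsto_nhds_nhds]
      intro e he
      obtain ⟨δ, hδ, h⟩ := rot_tendsto (pkD a M) 1 (e / 2) (by positivity)
      refine ⟨δ, hδ, fun b hb => ?_⟩
      rw [dist_eq_norm]
      exact (h b hb).trans_lt (by linarith)
    rwa [rot_one] at this
  have hb : Filter.Tendsto (fun b : Circle => a * b⁻¹) (nhds a) (nhds 1) := by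
    have : Filter.Tendsto (fun b : Circle => a * b⁻¹) (nhds a) (nhds (a * a⁻¹)) :=
      tendsto_const_nhds.mul (Filter.Tendsto.inv Filter.tendsto_id)
    rwa [mul_inv_cancel] at this
  have h1 : Filter.Tendsto (fun b : Circle => pkD b M) (nhds a) (nhds (pkD a M)) := by
    have := hrot.comp hb
    refine this.congr fun b => ?_
    exact rot_pkD a b M
  have h2 : Filter.Tendsto (fun b : Circle => ((T (pkD b M) : DA) : X)) (nhds a)
      (nhds (T (pkD a M) : X)) :=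
    ((continuous_subtype_val.comp T.continuous).tendsto _).comp h1
  have hev : Filter.Tendsto (fun b : Circle => (T (pkD b M) : X) b) (nhds a)
      (nhds ((T (pkD a M) : X) a)) := by
    have hce : Continuous fun fx : X × Circle => fx.1 fx.2 := continuous_eval
    exact (hce.tendsto ((T (pkD a M) : X), a)).comp (h2.prodMk_nhds Filter.tendsto_id)
  rw [Metric.tendsto_nhds_nhds] at hev
  obtain ⟨δ, hδ, h⟩ := hev ε hε
  refine ⟨δ, hδ, fun b hb => ?_⟩
  have := h hb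
  rw [dist_eq_norm] at this
  exact this.le

lemma exists_pow_small {δ : ℝ} (hδ : 0 < δ) (ε : ℝ) (hε : 0 < ε) :
    ∃ m : ℕ, 0 < m ∧ q δ ^ m ≤ ε ∧ q δ ^ (2 * m) ≤ ε ∧ (4 * (m : ℝ)) * q δ ^ (2 * m) ≤ ε := by
  have h1 := tendsto_self_mul_const_pow_of_lt_one (q_nonneg δ) (q_lt_one hδ)
  have h2 := (tendsto_order.1 h1).2 (ε / 4) (by positivity)
  obtain ⟨n, hn⟩ := Filter.eventually_atTop.1 h2
  refine ⟨n + 1, Nat.succ_pos n, ?_⟩
  have h3 := hn (n + 1) (Nat.le_succ n)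
  have hq1 : q δ ^ (2 * (n + 1)) ≤ q δ ^ (n + 1) :=
    pow_le_pow_of_le_one (q_nonneg _) (q_le_one _) (by omega)
  have hn1 : (1 : ℝ) ≤ ((n + 1 : ℕ) : ℝ) := by exact_mod_cast Nat.succ_pos n
  have hq0 : 0 ≤ q δ ^ (n + 1) := pow_nonneg (q_nonneg _) _
  have h4 : q δ ^ (n + 1) ≤ ε := by nlinarith
  refine ⟨h4, hq1.trans h4, ?_⟩
  nlinarith

/-- The key factorisation. -/
lemma factor_aux (T : DA →L[ℂ] DA) (K ε : ℝ) (hK1 : 1 ≤ K) (hK : ‖T‖ ≤ K) (hε : 0 < ε)
    (hεK : (2 * K + 1) * ε ≤ 1 / 16) (ζ₀ : Circle) (ρ : ℝ) (hρ : 0 < ρ) (k : ℕ)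
    (hT : ∀ ζ : Circle, dist ζ ζ₀ < ρ → ∀ g ∈ Conc ε k ζ, ‖(T g : X) ζ‖ ≤ K * ε)
    (M : ℕ) (hM : ∀ ζ z : Circle, 1 / ((k : ℝ) + 1) ≤ dist z ζ → ‖pk ζ M z‖ ≤ ε)
    (hc : 1 / 2 ≤ ‖(T (pkD ζ₀ M) : X) ζ₀‖) :
    ∃ U V : DA →L[ℂ] DA, V.comp (T.comp U) = ContinuousLinearMap.id ℂ DA := by
  set c : ℂ := (T (pkD ζ₀ M) : X) ζ₀ with hcdef
  have hcK : ‖c‖ ≤ K := by
    calc ‖c‖ ≤ ‖T (pkD ζ₀ M)‖ := norm_apply_le _ _
      _ ≤ ‖T‖ * ‖pkD ζ₀ M‖ := T.le_opNorm _
      _ ≤ K * 1 := mul_le_mul hK (norm_pkD_le_one _ _) (norm_nonneg _) (by linarith)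
      _ = K := mul_one K
  obtain ⟨δ₁, hδ₁, hdiag⟩ := diag_cont T M ζ₀ ε hε
  set δ : ℝ := min (min ρ δ₁) (1 / (2 * ((k : ℝ) + 1))) with hδdef
  have hk1 : (0 : ℝ) < (k : ℝ) + 1 := by positivity
  have hδ : 0 < δ := lt_min (lt_min hρ hδ₁) (by positivity)
  have hδk : δ ≤ 1 / (2 * ((k : ℝ) + 1)) := min_le_right _ _
  obtain ⟨m, hm, hq1, hq2, hq3⟩ := exists_pow_small hδ (min ε (1 / (16 * K)))
    (lt_min hε (by positivity))
  set w : DA := pkD ζ₀ (2 * m) with hw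
  have hcm := cm_pos (2 * m)
  obtain ⟨V₀, hV₀⟩ := exists_V (4 * m + 1) (by omega) (pk ζ₀ (2 * m))
    (pk_span _ _ _ (by omega))
  set N := 4 * m + 1 with hN
  set U : DA →L[ℂ] DA := (mulD w).comp (pw N) with hU
  set V : DA →L[ℂ] DA := ((cm (2 * m) : ℂ)⁻¹) • V₀ with hV
  have hUapp : ∀ (f : DA) (z : Circle), (U f : X) z = pk ζ₀ (2 * m) z * (f : X) (z ^ N) :=
    fun f z => rfl
  -- values off the arc
  have hwoff : ∀ z : Circle, δ ≤ dist z ζ₀ → ‖pk ζ₀ (2 * m) z‖ ≤ ε := fun z hz =>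
    (norm_pk_off ζ₀ (2 * m) z δ hδ.le hz).trans (hq2.trans (min_le_left _ _))
  -- the local estimate
  have hloc : ∀ f : DA, ‖f‖ ≤ 1 → ∀ z : Circle, dist z ζ₀ < δ →
      ‖(T (U f) : X) z - c * (U f : X) z‖ ≤ (2 * K + 1) * ε := by
    intro f hf z hz
    have hUf : ∀ y, ‖(U f : X) y‖ ≤ ‖pk ζ₀ (2 * m) y‖ := by
      intro y
      rw [hUapp, norm_mul]
      have := (norm_apply_le f (y ^ N)).trans hf
      nlinarith [norm_nonneg (pk ζ₀ (2 * m) y)]
    have hUf1 : ∀ y, ‖(U f : X) y‖ ≤ 1 := fun y => (hUf y).trans (norm_pk_le_one _ _ _)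
    set g : DA := (1 / 2 : ℂ) • (U f - ((U f : X) z) • pkD z M) with hg
    have hgapp : ∀ y, (g : X) y = (1 / 2 : ℂ) * ((U f : X) y - (U f : X) z * pk z M y) :=
      fun y => rfl
    have hgConc : g ∈ Conc ε k z := by
      refine ⟨?_, ?_, ?_⟩
      · refine (norm_DA_le _ zero_le_one).2 fun y => ?_
        rw [hgapp, norm_mul]
        have h1 : ‖(U f : X) y - (U f : X) z * pk z M y‖ ≤ 1 + 1 := by
          refine (norm_sub_le _ _).trans (add_le_add (hUf1 y) ?_)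
          rw [norm_mul]
          exact mul_le_one₀ (hUf1 z) (norm_nonneg _) (norm_pk_le_one _ _ _)
        have h2 : ‖(1 / 2 : ℂ)‖ = 1 / 2 := by norm_num
        rw [h2]; linarith
      · rw [hgapp, pk_self]; ring
      · intro y hy
        rw [hgapp, norm_mul]
        have h2 : ‖(1 / 2 : ℂ)‖ = 1 / 2 := by norm_num
        have hyoff : δ ≤ dist y ζ₀ := by
          have h3 : dist y z ≤ dist y ζ₀ + dist z ζ₀ := by
            rw [dist_comm z ζ₀]; exact dist_triangle _ _ _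
          have h4 : 1 / ((k : ℝ) + 1) = 2 * (1 / (2 * ((k : ℝ) + 1))) := by
            field_simp
          linarith
        have h1 : ‖(U f : X) y - (U f : X) z * pk z M y‖ ≤ ε + ε := by
          refine (norm_sub_le _ _).trans (add_le_add ((hUf y).trans (hwoff y hyoff)) ?_)
          rw [norm_mul]
          calc ‖(U f : X) z‖ * ‖pk z M y‖ ≤ 1 * ε :=
                mul_le_mul (hUf1 z) (hM z y hy) (norm_nonneg _) zero_le_one
            _ = ε := one_mul ε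
        rw [h2]; linarith
    have hzρ : dist z ζ₀ < ρ := hz.trans_le ((min_le_left _ _).trans (min_le_left _ _))
    have hzδ₁ : dist z ζ₀ < δ₁ := hz.trans_le ((min_le_left _ _).trans (min_le_right _ _))
    have h5 := hT z hzρ g hgConc
    have h6 : (T g : X) z = (1 / 2 : ℂ) * ((T (U f) : X) z - (U f : X) z *
        (T (pkD z M) : X) z) := by
      rw [hg, map_smul, map_sub, map_smul]
      rfl
    have h7 : ‖(T (U f) : X) z - (U f : X) z * (T (pkD z M) : X) z‖ ≤ 2 * (K * ε) := by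
      rw [h6, norm_mul] at h5
      have h2 : ‖(1 / 2 : ℂ)‖ = 1 / 2 := by norm_num
      rw [h2] at h5
      linarith
    have h8 := hdiag z hzδ₁
    have h9 : (T (U f) : X) z - c * (U f : X) z =
        ((T (U f) : X) z - (U f : X) z * (T (pkD z M) : X) z) +
          (U f : X) z * ((T (pkD z M) : X) z - c) := by ring
    rw [h9]
    refine (norm_add_le _ _).trans ?_
    rw [norm_mul]
    have h10 : ‖(U f : X) z‖ * ‖(T (pkD z M) : X) z - c‖ ≤ 1 * ε :=
      mul_le_mul (hUf1 z) h8 (norm_nonneg _) zero_le_one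
    linarith
  -- the global estimate
  have hglob : ∀ f : DA, ‖f‖ ≤ 1 → ∀ z : Circle,
      ‖(T (U f) : X) z - c * (U f : X) z‖ ≤ 2 * K := by
    intro f hf z
    have hUf1 : ‖U f‖ ≤ 1 := by
      refine (norm_DA_le _ zero_le_one).2 fun y => ?_
      rw [hUapp, norm_mul]
      exact mul_le_one₀ (norm_pk_le_one _ _ _) (norm_nonneg _) ((norm_apply_le f _).trans hf)
    have h1 : ‖(T (U f) : X) z‖ ≤ K := by
      calc ‖(T (U f) : X) z‖ ≤ ‖T (U f)‖ := norm_apply_le _ _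
        _ ≤ ‖T‖ * ‖U f‖ := T.le_opNorm _
        _ ≤ K * 1 := mul_le_mul hK hUf1 (norm_nonneg _) (by linarith)
        _ = K := mul_one K
    have h2 : ‖c * (U f : X) z‖ ≤ K * 1 := by
      rw [norm_mul]
      exact mul_le_mul hcK ((norm_apply_le _ _).trans hUf1) (norm_nonneg _) (by linarith)
    refine (norm_sub_le _ _).trans ?_
    linarith
  -- the composition is close to c
  have hclose : ‖V.comp (T.comp U) - c • ContinuousLinearMap.id ℂ DA‖ ≤ 1 / 4 := by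
    refine ContinuousLinearMap.opNorm_le_of_unit_norm (by norm_num) fun f hf => ?_
    refine (norm_DA_le _ (by norm_num)).2 fun x => ?_
    obtain ⟨z, rfl⟩ := exists_pow_eq N (by omega) x
    have h1 : (((V.comp (T.comp U) - c • ContinuousLinearMap.id ℂ DA) f : DA) : X) (z ^ N) =
        (cm (2 * m) : ℂ)⁻¹ * avg N (star (pk ζ₀ (2 * m)) * (T (U f) : X)) z -
          c * (f : X) (z ^ N) := by
      have : (((V.comp (T.comp U) - c • ContinuousLinearMap.id ℂ DA) f : DA) : X) (z ^ N) =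
        (cm (2 * m) : ℂ)⁻¹ * ((V₀ (T (U f)) : DA) : X) (z ^ N) - c * (f : X) (z ^ N) := rfl
      rw [this, hV₀]
    have h2 : avg N (star (pk ζ₀ (2 * m)) * (c • (U f : X))) z =
        c * (cm (2 * m) * (f : X) (z ^ N)) := by
      have h3 : star (pk ζ₀ (2 * m)) * (c • (U f : X)) =
          c • ((star (pk ζ₀ (2 * m)) * pk ζ₀ (2 * m)) * compX (powMap N) (f : X)) := by
        ext y
        simp only [ContinuousMap.mul_apply, ContinuousMap.smul_apply, ContinuousMap.star_apply,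
          smul_eq_mul, compX_apply, powMap_apply, hUapp]
        ring
      rw [h3, map_smul, ContinuousMap.smul_apply, smul_eq_mul, avg_mul_of_invariant,
        avg_pk N (2 * m) (by omega)]
      · rfl
      · intro j
        rw [compX_apply, compX_apply, powMap_apply, powMap_apply, mul_pow,
          omega_pow_pow N (by omega), mul_one]
    have h4 : (cm (2 * m) : ℂ)⁻¹ * avg N (star (pk ζ₀ (2 * m)) * (T (U f) : X)) z -
          c * (f : X) (z ^ N) = (cm (2 * m) : ℂ)⁻¹ *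
          avg N (star (pk ζ₀ (2 * m)) * ((T (U f) : X) - c • (U f : X))) z := by
      rw [mul_sub (star (pk ζ₀ (2 * m))), map_sub, ContinuousMap.sub_apply, h2]
      have : (cm (2 * m) : ℂ) ≠ 0 := by exact_mod_cast hcm.ne'
      field_simp
    rw [h1, h4, norm_mul, norm_inv, Complex.norm_real, Real.norm_of_nonneg hcm.le]
    have h5 := avg_bound N m (by omega) ζ₀ z ((T (U f) : X) - c • (U f : X)) (pk ζ₀ (2 * m)) δ
      ((2 * K + 1) * ε) (2 * K) hδ.le (by positivity) (by linarith) (fun y => rfl)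
      (fun y hy => hloc f hf.le y hy) (fun y _ => hglob f hf.le y)
    have h6 := cm_le m
    have h7 := cm_ge (2 * m) (by omega)
    have h8 : (cm (2 * m))⁻¹ ≤ 4 * m := by
      rw [inv_le_comm₀ hcm (by positivity)]
      refine le_trans (le_of_eq ?_) h7
      push_cast
      field_simp
      norm_num
    calc (cm (2 * m))⁻¹ * ‖avg N (star (pk ζ₀ (2 * m)) * ((T (U f) : X) - c • (U f : X))) z‖
        ≤ (cm (2 * m))⁻¹ * ((2 * K + 1) * ε * cm m + 2 * K * q δ ^ (2 * m)) := by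
          refine mul_le_mul_of_nonneg_left h5 (by positivity)
      _ = (2 * K + 1) * ε * ((cm (2 * m))⁻¹ * cm m) +
          2 * K * ((cm (2 * m))⁻¹ * q δ ^ (2 * m)) := by ring
      _ ≤ 1 / 16 * 2 + 2 * K * (1 / (16 * K)) := by
          have h9 : (cm (2 * m))⁻¹ * cm m ≤ 2 := by
            rw [inv_mul_le_iff₀ hcm]
            linarith
          have h10 : (cm (2 * m))⁻¹ * q δ ^ (2 * m) ≤ 1 / (16 * K) := by
            have : (cm (2 * m))⁻¹ * q δ ^ (2 * m) ≤ (4 * m) * q δ ^ (2 * m) :=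
              mul_le_mul_of_nonneg_right h8 (pow_nonneg (q_nonneg _) _)
            exact this.trans (hq3.trans (min_le_right _ _))
          have h11 : 0 ≤ (cm (2 * m))⁻¹ * cm m := by
            have := (cm_pos m).le
            positivity
          refine add_le_add ?_ ?_
          · exact mul_le_mul hεK h9 h11 (by norm_num)
          · exact mul_le_mul_of_nonneg_left h10 (by linarith)
      _ = 1 / 4 := by
          field_simp
          norm_num
  obtain ⟨W, hW⟩ := exists_inv _ c hc hclose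
  refine ⟨U, W.comp V, ?_⟩
  rw [← hW]
  rfl

/-- For every operator `T` on the disc algebra the identity factors through `T` or through
`1 - T`. -/
theorem factor (T : DA →L[ℂ] DA) :
    ∃ U V : DA →L[ℂ] DA, V.comp (T.comp U) = ContinuousLinearMap.id ℂ DA ∨
      V.comp ((ContinuousLinearMap.id ℂ DA - T).comp U) = ContinuousLinearMap.id ℂ DA := by
  set K : ℝ := ‖T‖ + 1 with hK
  have hT0 : 0 ≤ ‖T‖ := norm_nonneg T
  have hK1 : 1 ≤ K := by linarith
  set ε : ℝ := 1 / (16 * (2 * K + 1)) with hε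
  have hεpos : 0 < ε := by positivity
  have hεK : (2 * K + 1) * ε ≤ 1 / 16 := by
    rw [hε]
    apply le_of_eq
    field_simp
  obtain ⟨ζ₀, ρ, hρ, k, hb⟩ := baire_arc T ε hεpos
  have hk1 : (0 : ℝ) < 1 / ((k : ℝ) + 1) := by positivity
  obtain ⟨M, -, hM1, -, -⟩ := exists_pow_small hk1 ε hεpos
  have hM : ∀ ζ z : Circle, 1 / ((k : ℝ) + 1) ≤ dist z ζ → ‖pk ζ M z‖ ≤ ε :=
    fun ζ z hz => (norm_pk_off ζ M z _ hk1.le hz).trans hM1
  by_cases hc : 1 / 2 ≤ ‖(T (pkD ζ₀ M) : X) ζ₀‖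
  · obtain ⟨U, V, h⟩ := factor_aux T K ε hK1 (by linarith) hεpos hεK ζ₀ ρ hρ k hb M hM hc
    exact ⟨U, V, Or.inl h⟩
  · have hT2 : ∀ ζ : Circle, dist ζ ζ₀ < ρ → ∀ g ∈ Conc ε k ζ,
        ‖((ContinuousLinearMap.id ℂ DA - T) g : X) ζ‖ ≤ K * ε := by
      intro ζ hζ g hg
      have h1 : ((ContinuousLinearMap.id ℂ DA - T) g : X) ζ = (g : X) ζ - (T g : X) ζ := rfl
      rw [h1, hg.2.1, zero_sub, norm_neg]
      exact hb ζ hζ g hg
    have hc2 : 1 / 2 ≤ ‖((ContinuousLinearMap.id ℂ DA - T) (pkD ζ₀ M) : X) ζ₀‖ := by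
      have h1 : ((ContinuousLinearMap.id ℂ DA - T) (pkD ζ₀ M) : X) ζ₀ =
          pk ζ₀ M ζ₀ - (T (pkD ζ₀ M) : X) ζ₀ := rfl
      rw [h1, pk_self]
      push Not at hc
      have h2 := norm_sub_norm_le (1 : ℂ) ((T (pkD ζ₀ M) : X) ζ₀)
      rw [norm_one] at h2
      linarith
    have hn : ‖ContinuousLinearMap.id ℂ DA - T‖ ≤ K := by
      have h1 : ‖ContinuousLinearMap.id ℂ DA - T‖ ≤ ‖ContinuousLinearMap.id ℂ DA‖ + ‖T‖ :=
        norm_sub_le (ContinuousLinearMap.id ℂ DA) T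
      have h2 : ‖ContinuousLinearMap.id ℂ DA‖ ≤ 1 := ContinuousLinearMap.norm_id_le
      linarith
    obtain ⟨U, V, h⟩ := factor_aux _ K ε hK1 hn hεpos hεK ζ₀ ρ hρ k hT2 M hM hc2
    exact ⟨U, V, Or.inr h⟩

end Pool.Agent.MP_7a5dd1_an
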