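import Pool.Agent.Lib.MP_7a5dd1_an.Factor
import Pool.Agent.Lib.MP_7a5dd1_an.Decomp

set_option autoImplicit false

namespace Pool.Agent.MP_7a5dd1_an

/-- Primariness of the disc algebra, given that its `c₀`-sum is complemented in it. -/
theorem main_of_c0
    (hc0 : ∃ (J : ZeroAtInftyContinuousMap ℕ DA →L[ℂ] DA)
      (R : DA →L[ℂ] ZeroAtInftyContinuousMap ℕ DA), R.comp J = ContinuousLinearMap.id ℂ _)
    (P : DA →L[ℂ] DA) (hP : P.comp P = P) :
    Nonempty (LinearMap.range P.toLinearMap ≃L[ℂ] DA) ∨
      Nonempty (LinearMap.ker P.toLinearMap ≃L[ℂ] DA) := by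
  obtain ⟨J, R, hRJ⟩ := hc0
  obtain ⟨U, V, h | h⟩ := factor P
  · exact Or.inl (decomposition J R hRJ P hP U V h)
  · right
    set Q : DA →L[ℂ] DA := ContinuousLinearMap.id ℂ DA - P with hQ
    have hPP : ∀ x, P (P x) = P x := fun x => by
      have := congrArg (fun A : DA →L[ℂ] DA => A x) hP
      simpa using this
    have hQQ : Q.comp Q = Q := by
      refine ContinuousLinearMap.ext fun x => ?_
      change (x - P x) - P (x - P x) = x - P x
      rw [map_sub, hPP, sub_self, sub_zero]
    have hker : LinearMap.ker P.toLinearMap = LinearMap.range Q.toLinearMap := by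
      ext x
      constructor
      · intro hx
        have hx' : P x = 0 := hx
        refine ⟨x, ?_⟩
        change x - P x = x
        rw [hx', sub_zero]
      · rintro ⟨y, rfl⟩
        change P (y - P y) = 0
        rw [map_sub, hPP, sub_self]
    rw [hker]
    exact decomposition J R hRJ Q hQQ U V h

end Pool.Agent.MP_7a5dd1_an
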