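import Pool.Agent.Lib.MP_7a5dd1_an.Defs

set_option autoImplicit false

namespace Pool.Agent.MP_7a5dd1_an

open Metric

/-- Continuous functions on the circle. -/
abbrev X : Type := C(Circle, ℂ)

lemma mono_apply (n : ℕ) (z : Circle) : mono n z = (z : ℂ) ^ n := rfl

lemma mono_mem (n : ℕ) : mono n ∈ DA :=
  Submodule.le_topologicalClosure _ (Submodule.subset_span ⟨n, rfl⟩)

lemma isClosed_DA : IsClosed (DA : Set X) := Submodule.isClosed_topologicalClosure _

instance : CompleteSpace DA := isClosed_DA.completeSpace_coe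

lemma map_le {F : Type*} [NormedAddCommGroup F] [NormedSpace ℂ F] (Φ : X →L[ℂ] F)
    (S : Submodule ℂ F) (hS : IsClosed (S : Set F)) (h : ∀ n, Φ (mono n) ∈ S)
    {f : X} (hf : f ∈ DA) : Φ f ∈ S := by
  have h1 : DA ≤ S.comap Φ.toLinearMap := by
    refine Submodule.topologicalClosure_minimal _ ?_ ?_
    · rw [Submodule.span_le]
      rintro _ ⟨n, rfl⟩
      exact h n
    · exact hS.preimage Φ.continuous
  exact h1 hf

/-- Restriction of an operator on the continuous functions to the disc algebra. -/
noncomputable def res (Φ : X →L[ℂ] X) (h : ∀ n, Φ (mono n) ∈ DA) : DA →L[ℂ] DA :=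
  (Φ.comp DA.subtypeL).codRestrict DA (fun f => map_le Φ DA isClosed_DA h f.2)

@[simp] lemma res_coe (Φ : X →L[ℂ] X) (h : ∀ n, Φ (mono n) ∈ DA) (f : DA) :
    ((res Φ h f : DA) : X) = Φ (f : X) := rfl

/-- Composition with a continuous self map of the circle. -/
noncomputable def compX (φ : C(Circle, Circle)) : X →L[ℂ] X :=
  LinearMap.mkContinuous
    { toFun := fun f => f.comp φ
      map_add' := fun _ _ => rfl
      map_smul' := fun _ _ => rfl } 1 (by
      intro f
      rw [one_mul]
      refine (ContinuousMap.norm_le _ (norm_nonneg _)).2 fun z => ?_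
      exact f.norm_coe_le_norm (φ z))

@[simp] lemma compX_apply (φ : C(Circle, Circle)) (f : X) (z : Circle) :
    compX φ f z = f (φ z) := rfl

/-- The rotation of the circle. -/
noncomputable def rotMap (a : Circle) : C(Circle, Circle) := ⟨fun z => z * a, by fun_prop⟩

/-- The power map of the circle. -/
noncomputable def powMap (N : ℕ) : C(Circle, Circle) := ⟨fun z => z ^ N, by fun_prop⟩

@[simp] lemma rotMap_apply (a z : Circle) : rotMap a z = z * a := rfl
@[simp] lemma powMap_apply (N : ℕ) (z : Circle) : powMap N z = z ^ N := rfl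

/-- Rotation on the disc algebra. -/
noncomputable def rot (a : Circle) : DA →L[ℂ] DA :=
  res (compX (rotMap a)) (by
    intro n
    have : compX (rotMap a) (mono n) = ((a : ℂ) ^ n) • mono n := by
      ext z
      simp [mono_apply, mul_pow, mul_comm]
    rw [this]
    exact DA.smul_mem _ (mono_mem n))

@[simp] lemma rot_apply (a : Circle) (f : DA) (z : Circle) :
    ((rot a f : DA) : X) z = (f : X) (z * a) := rfl

/-- Composition with the power map on the disc algebra. -/
noncomputable def pw (N : ℕ) : DA →L[ℂ] DA :=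
  res (compX (powMap N)) (by
    intro n
    have : compX (powMap N) (mono n) = mono (N * n) := by
      ext z
      simp [mono_apply, pow_mul]
    rw [this]
    exact mono_mem _)

@[simp] lemma pw_apply (N : ℕ) (f : DA) (z : Circle) :
    ((pw N f : DA) : X) z = (f : X) (z ^ N) := rfl

lemma norm_DA_le (f : DA) {C : ℝ} (hC : 0 ≤ C) : ‖f‖ ≤ C ↔ ∀ z, ‖(f : X) z‖ ≤ C :=
  ContinuousMap.norm_le (f : X) hC

lemma norm_apply_le (f : DA) (z : Circle) : ‖(f : X) z‖ ≤ ‖f‖ :=
  (f : X).norm_coe_le_norm z

lemma mul_mem_DA {f g : X} (hf : f ∈ DA) (hg : g ∈ DA) : f * g ∈ DA := by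
  have key : ∀ n, mono n * g ∈ DA := by
    intro n
    have := map_le (ContinuousLinearMap.mul ℂ X (mono n)) DA isClosed_DA (by
      intro k
      have : ContinuousLinearMap.mul ℂ X (mono n) (mono k) = mono (n + k) := by
        ext z
        simp [mono_apply, pow_add]
      rw [this]
      exact mono_mem _) hg
    simpa using this
  have := map_le ((ContinuousLinearMap.mul ℂ X).flip g) DA isClosed_DA (by
    intro n
    exact key n) hf
  exact this

/-- Multiplication by an element of the disc algebra. -/
noncomputable def mulD (w : DA) : DA →L[ℂ] DA :=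
  res (ContinuousLinearMap.mul ℂ X (w : X)) (by
    intro n
    simpa using mul_mem_DA w.2 (mono_mem n))

@[simp] lemma mulD_apply (w f : DA) (z : Circle) :
    ((mulD w f : DA) : X) z = (w : X) z * (f : X) z := rfl

end Pool.Agent.MP_7a5dd1_an
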