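import Pool.Agent.Lib.MP_7a5dd1_an.Avg

set_option autoImplicit false

namespace Pool.Agent.MP_7a5dd1_an

open Metric Finset

/-- The peak function at `a`. -/
noncomputable def pk (a : Circle) (M : ℕ) : X :=
  ⟨fun z => ((1 + ((a⁻¹ : Circle) : ℂ) * z) / 2) ^ M, by fun_prop⟩

lemma pk_apply (a : Circle) (M : ℕ) (z : Circle) :
    pk a M z = ((1 + ((a⁻¹ : Circle) : ℂ) * z) / 2) ^ M := rfl

lemma mono_mul_pk_span (a : Circle) (s M N : ℕ) (h : s + M < N) :
    mono s * pk a M ∈ Submodule.span ℂ (mono '' {j | j < N}) := by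
  have : mono s * pk a M = ∑ j ∈ range (M + 1),
      ((M.choose j : ℂ) * ((a⁻¹ : Circle) : ℂ) ^ j / 2 ^ M) • mono (s + j) := by
    ext z
    rw [ContinuousMap.mul_apply, pk_apply, mono_apply, add_comm (1 : ℂ), div_pow, add_pow]
    simp only [ContinuousMap.coe_sum, ContinuousMap.coe_smul, Finset.sum_apply, Pi.smul_apply,
      mono_apply, smul_eq_mul, one_pow, mul_one]
    rw [Finset.sum_div, Finset.mul_sum]
    refine Finset.sum_congr rfl fun j _ => ?_
    rw [mul_pow, pow_add]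
    ring
  rw [this]
  refine Submodule.sum_mem _ fun j hj => Submodule.smul_mem _ _ (Submodule.subset_span ?_)
  have hj' := mem_range.1 hj
  exact ⟨s + j, show s + j < N by omega, rfl⟩

lemma pk_span (a : Circle) (M N : ℕ) (h : M < N) :
    pk a M ∈ Submodule.span ℂ (mono '' {j | j < N}) := by
  have h0 := mono_mul_pk_span a 0 M N (by omega)
  have : mono 0 * pk a M = pk a M := by
    ext z
    simp [mono_apply]
  rwa [this] at h0

lemma pk_mem (a : Circle) (M : ℕ) : pk a M ∈ DA := by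
  have h := pk_span a M (M + 1) (Nat.lt_succ_self M)
  have hle : Submodule.span ℂ (mono '' {j | j < M + 1}) ≤ DA := by
    rw [Submodule.span_le]
    rintro _ ⟨j, -, rfl⟩
    exact mono_mem j
  exact hle h

/-- The peak function as an element of the disc algebra. -/
noncomputable def pkD (a : Circle) (M : ℕ) : DA := ⟨pk a M, pk_mem a M⟩

@[simp] lemma pkD_coe (a : Circle) (M : ℕ) : ((pkD a M : DA) : X) = pk a M := rfl

lemma pk_self (a : Circle) (M : ℕ) : pk a M a = 1 := by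
  rw [pk_apply]
  have : ((a⁻¹ : Circle) : ℂ) * a = 1 := by
    rw [← Circle.coe_mul, inv_mul_cancel, Circle.coe_one]
  rw [this]
  norm_num

lemma dist_le_two (a z : Circle) : dist z a ≤ 2 := by
  rw [circle_dist]
  calc ‖(z : ℂ) - a‖ ≤ ‖(z : ℂ)‖ + ‖(a : ℂ)‖ := norm_sub_le _ _
    _ = 2 := by rw [Circle.norm_coe, Circle.norm_coe]; norm_num

/-- The decay rate of the peak functions. -/
noncomputable def q (δ : ℝ) : ℝ := Real.sqrt (1 - δ ^ 2 / 4)

lemma q_nonneg (δ : ℝ) : 0 ≤ q δ := Real.sqrt_nonneg _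

lemma q_lt_one {δ : ℝ} (h : 0 < δ) : q δ < 1 := by
  rw [q, Real.sqrt_lt' one_pos]
  have : 0 < δ ^ 2 := by positivity
  linarith

lemma q_le_one (δ : ℝ) : q δ ≤ 1 := by
  rw [q, Real.sqrt_le_one]
  have : 0 ≤ δ ^ 2 := by positivity
  linarith

lemma q_anti {δ ε : ℝ} (h0 : 0 ≤ δ) (h : δ ≤ ε) : q ε ≤ q δ := by
  apply Real.sqrt_le_sqrt
  have : δ ^ 2 ≤ ε ^ 2 := by gcongr
  linarith

lemma norm_pk (a : Circle) (M : ℕ) (z : Circle) : ‖pk a M z‖ = q (dist z a) ^ M := by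
  rw [pk_apply, norm_pow]
  congr 1
  rw [q, eq_comm, Real.sqrt_eq_iff_mul_self_eq]
  · have h1 : ‖(1 + ((a⁻¹ : Circle) : ℂ) * z) / 2‖ = ‖(z : ℂ) + a‖ / 2 := by
      have : (z : ℂ) + a = a * (1 + ((a⁻¹ : Circle) : ℂ) * z) := by
        rw [mul_add, ← mul_assoc, ← Circle.coe_mul, mul_inv_cancel, Circle.coe_one]
        ring
      rw [this, norm_div, norm_mul, Circle.norm_coe, one_mul]
      simp
    have h2 := parallelogram_law_with_norm ℝ (z : ℂ) (a : ℂ)
    rw [Circle.norm_coe, Circle.norm_coe] at h2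
    rw [h1, circle_dist]
    nlinarith [h2]
  · have h3 := dist_le_two a z
    have h4 : 0 ≤ dist z a := dist_nonneg
    nlinarith
  · positivity

lemma norm_pk_le_one (a : Circle) (M : ℕ) (z : Circle) : ‖pk a M z‖ ≤ 1 := by
  rw [norm_pk]
  exact pow_le_one₀ (q_nonneg _) (q_le_one _)

lemma norm_pk_off (a : Circle) (M : ℕ) (z : Circle) (δ : ℝ) (hδ : 0 ≤ δ) (h : δ ≤ dist z a) :
    ‖pk a M z‖ ≤ q δ ^ M := by
  rw [norm_pk]
  exact pow_le_pow_left₀ (q_nonneg _) (q_anti hδ h) _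

lemma norm_pkD_le_one (a : Circle) (M : ℕ) : ‖pkD a M‖ ≤ 1 :=
  (norm_DA_le _ zero_le_one).2 fun z => norm_pk_le_one a M z

/-- The mean value of the squared modulus of the peak function. -/
noncomputable def cm (m : ℕ) : ℝ := (Nat.centralBinom m : ℝ) / 4 ^ m

lemma cm_pos (m : ℕ) : 0 < cm m := by
  have := Nat.centralBinom_pos m
  unfold cm
  positivity

lemma cm_ge (m : ℕ) (hm : 0 < m) : 1 / (2 * (m : ℝ)) ≤ cm m := by
  have h := Nat.four_pow_le_two_mul_self_mul_centralBinom m hm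
  have h' : (4 : ℝ) ^ m ≤ 2 * m * Nat.centralBinom m := by exact_mod_cast h
  unfold cm
  rw [div_le_div_iff₀ (by positivity) (by positivity)]
  linarith

lemma cm_succ (m : ℕ) : cm (m + 1) = cm m * ((2 * m + 1) / (2 * m + 2)) := by
  have h := Nat.succ_mul_centralBinom_succ m
  have h' : ((m : ℝ) + 1) * Nat.centralBinom (m + 1) = 2 * (2 * m + 1) * Nat.centralBinom m := by
    exact_mod_cast h
  unfold cm
  have h4 : (0 : ℝ) < 4 ^ m := by positivity
  rw [div_mul_div_comm, div_eq_div_iff (by positivity) (by positivity), pow_succ]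
  linear_combination (2 * 4 ^ m : ℝ) * h'

lemma cm_ratio (m : ℕ) : cm m * (1 / 2 + 1 / (8 * m + 2)) ≤ cm (2 * m) := by
  induction m with
  | zero => norm_num
  | succ m ih =>
    have h1 : cm (2 * (m + 1)) = cm (2 * m) * (((4 * m + 1) / (4 * m + 2)) *
        ((4 * m + 3) / (4 * m + 4))) := by
      rw [show 2 * (m + 1) = 2 * m + 1 + 1 by ring, cm_succ, cm_succ]
      push_cast
      rw [mul_assoc]
      congr 2
      · congr 1 <;> ring
      · congr 1 <;> ring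
    rw [h1, cm_succ]
    have hm : (0 : ℝ) ≤ m := by positivity
    have h2 : 0 ≤ ((4 * (m : ℝ) + 1) / (4 * m + 2)) * ((4 * m + 3) / (4 * m + 4)) := by
      positivity
    refine le_trans ?_ (mul_le_mul_of_nonneg_right ih h2)
    rw [mul_assoc, mul_assoc]
    refine mul_le_mul_of_nonneg_left ?_ (cm_pos m).le
    push_cast
    rw [← sub_nonneg]
    have : (1 / 2 + 1 / (8 * (m : ℝ) + 2)) * (((4 * m + 1) / (4 * m + 2)) *
        ((4 * m + 3) / (4 * m + 4))) - ((2 * m + 1) / (2 * m + 2)) *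
        (1 / 2 + 1 / (8 * (m + 1) + 2)) =
        (24 * (m : ℝ) + 6) / ((8 * m + 2) * (8 * m + 10) * (2 * m + 2) * 2) := by
      field_simp
      ring
    rw [this]
    positivity

lemma cm_le (m : ℕ) : cm m ≤ 2 * cm (2 * m) := by
  have h := cm_ratio m
  have h1 : 0 ≤ cm m * (1 / (8 * m + 2)) := by
    have := (cm_pos m).le
    positivity
  nlinarith

lemma star_pk_mul_pk (a : Circle) (m : ℕ) : star (pk a m) * pk a m =
    ∑ j ∈ range (2 * m + 1), (((2 * m).choose j : ℂ) / 4 ^ m *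
      (((a⁻¹) ^ ((j : ℤ) - m) : Circle) : ℂ)) • zmono ((j : ℤ) - m) := by
  ext z
  rw [ContinuousMap.mul_apply, ContinuousMap.star_apply, pk_apply]
  simp only [ContinuousMap.coe_sum, ContinuousMap.coe_smul, Finset.sum_apply, Pi.smul_apply,
    zmono_apply, smul_eq_mul]
  set t : Circle := a⁻¹ * z with ht
  have h1 : ((a⁻¹ : Circle) : ℂ) * z = (t : ℂ) := by rw [ht, Circle.coe_mul]
  rw [h1]
  have h2 : ∀ j : ℕ, (((2 * m).choose j : ℂ) / 4 ^ m * (((a⁻¹) ^ ((j : ℤ) - m) : Circle) : ℂ)) *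
      ((z ^ ((j : ℤ) - m) : Circle) : ℂ) = ((2 * m).choose j : ℂ) * (t : ℂ) ^ j *
        ((t : ℂ) ^ m)⁻¹ / 4 ^ m := by
    intro j
    have h3 : (((a⁻¹) ^ ((j : ℤ) - m) : Circle) : ℂ) * ((z ^ ((j : ℤ) - m) : Circle) : ℂ) =
        (t : ℂ) ^ j * ((t : ℂ) ^ m)⁻¹ := by
      rw [← Circle.coe_mul, ← mul_zpow, ← ht, zpow_sub, zpow_natCast, zpow_natCast,
        Circle.coe_mul, Circle.coe_inv, Circle.coe_pow, Circle.coe_pow]
    rw [mul_assoc, h3]
    ring
  simp_rw [h2]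
  rw [← Finset.sum_div, ← Finset.sum_mul]
  have h4 : ∑ j ∈ range (2 * m + 1), ((2 * m).choose j : ℂ) * (t : ℂ) ^ j =
      ((t : ℂ) + 1) ^ (2 * m) := by
    rw [add_pow]
    refine Finset.sum_congr rfl fun j _ => ?_
    rw [one_pow]
    ring
  rw [h4]
  have ht0 : (t : ℂ) ≠ 0 := Circle.coe_ne_zero t
  have h5 : star ((1 + (t : ℂ)) / 2) = (1 + (t : ℂ)) / 2 / t := by
    have : star (t : ℂ) = (t : ℂ)⁻¹ := by
      rw [← Circle.coe_inv, Circle.coe_inv_eq_conj]; rfl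
    rw [star_div₀, star_add, this, star_one]
    have h6 : star (2 : ℂ) = 2 := by simp
    rw [h6]
    field_simp
    ring
  have h7 : (4 : ℂ) ^ m = 2 ^ m * 2 ^ m := by
    rw [← mul_pow]; norm_num
  have h8 : ((t : ℂ) + 1) ^ (2 * m) = (1 + (t : ℂ)) ^ m * (1 + (t : ℂ)) ^ m := by
    rw [two_mul, pow_add, add_comm]
  rw [star_pow, h5, div_pow, div_pow, h7, h8]
  field_simp

lemma avg_pk (N m : ℕ) (h : m < N) (a z : Circle) :
    avg N (star (pk a m) * pk a m) z = (cm m : ℂ) := by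
  have hN : N ≠ 0 := by omega
  rw [star_pk_mul_pk, map_sum]
  simp_rw [map_smul]
  rw [ContinuousMap.coe_sum, Finset.sum_apply, Finset.sum_eq_single m]
  · rw [sub_self, ContinuousMap.smul_apply, avg_zmono_zero N hN, zpow_zero, cm,
      Nat.centralBinom_eq_two_mul_choose]
    simp
  · intro j hj hjm
    have hd : ¬ (N : ℤ) ∣ (j : ℤ) - m := by
      intro hd
      have hj' := mem_range.1 hj
      have := Int.eq_zero_of_abs_lt_dvd hd (by rw [abs_lt]; constructor <;> omega)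
      omega
    rw [avg_zmono_of_not_dvd N hN _ hd, smul_zero]
    rfl
  · intro hm
    exact absurd (mem_range.2 (by omega)) hm

/-- The mean of the squared modulus, as a real sum. -/
lemma sum_norm_pk_sq (N m : ℕ) (h : m < N) (a z : Circle) :
    (1 / (N : ℝ)) * ∑ j ∈ range N, ‖pk a m (z * omega N ^ j)‖ ^ 2 = cm m := by
  have h1 := avg_pk N m h a z
  rw [avg_apply] at h1
  have h2 : ∀ j, (star (pk a m) * pk a m) (z * omega N ^ j) =
      ((‖pk a m (z * omega N ^ j)‖ ^ 2 : ℝ) : ℂ) := by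
    intro j
    rw [ContinuousMap.mul_apply, ContinuousMap.star_apply]
    have := Complex.conj_mul' (pk a m (z * omega N ^ j))
    push_cast
    exact this
  simp_rw [h2] at h1
  have h3 : (((1 / (N : ℝ)) * ∑ j ∈ range N, ‖pk a m (z * omega N ^ j)‖ ^ 2 : ℝ) : ℂ) =
      (cm m : ℂ) := by
    rw [← h1]; push_cast; ring
  exact_mod_cast h3

lemma norm_pk_two_mul (a : Circle) (m : ℕ) (z : Circle) :
    ‖pk a (2 * m) z‖ = ‖pk a m z‖ ^ 2 := by
  rw [norm_pk, norm_pk, ← pow_mul, mul_comm]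

/-- The basic estimate for the weighted averages. -/
lemma avg_bound (N m : ℕ) (hN : 2 * m < N) (a z : Circle) (g p : X) (δ A B : ℝ) (hδ : 0 ≤ δ)
    (hA : 0 ≤ A) (hB : 0 ≤ B) (hp : ∀ y, ‖p y‖ = ‖pk a (2 * m) y‖)
    (hin : ∀ y, dist y a < δ → ‖g y‖ ≤ A) (hout : ∀ y, δ ≤ dist y a → ‖g y‖ ≤ B) :
    ‖avg N (star p * g) z‖ ≤ A * cm m + B * q δ ^ (2 * m) := by
  have hN0 : N ≠ 0 := by omega
  have hNpos : (0 : ℝ) < N := by positivity
  rw [avg_apply, norm_mul]
  have h1 : ‖(1 / (N : ℂ))‖ = 1 / (N : ℝ) := by simp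
  rw [h1]
  have h2 : ∀ y, ‖(star p * g) y‖ ≤ A * ‖pk a m y‖ ^ 2 + B * q δ ^ (2 * m) := by
    intro y
    rw [ContinuousMap.mul_apply, ContinuousMap.star_apply, norm_mul, norm_star, hp]
    by_cases hy : dist y a < δ
    · have h3 := hin y hy
      rw [norm_pk_two_mul]
      have h4 : 0 ≤ B * q δ ^ (2 * m) := mul_nonneg hB (pow_nonneg (q_nonneg _) _)
      have h5 : 0 ≤ ‖pk a m y‖ ^ 2 := by positivity
      nlinarith
    · push Not at hy
      have h3 := hout y hy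
      have h4 := norm_pk_off a (2 * m) y δ hδ hy
      have h5 : 0 ≤ A * ‖pk a m y‖ ^ 2 := by positivity
      have h6 : ‖pk a (2 * m) y‖ * ‖g y‖ ≤ q δ ^ (2 * m) * B :=
        mul_le_mul h4 h3 (norm_nonneg _) (pow_nonneg (q_nonneg _) _)
      linarith
  calc (1 / (N : ℝ)) * ‖∑ j ∈ range N, (star p * g) (z * omega N ^ j)‖
      ≤ (1 / (N : ℝ)) * ∑ j ∈ range N, (A * ‖pk a m (z * omega N ^ j)‖ ^ 2 +
          B * q δ ^ (2 * m)) := by
        refine mul_le_mul_of_nonneg_left ?_ (by positivity)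
        exact (norm_sum_le _ _).trans (Finset.sum_le_sum fun j _ => h2 _)
    _ = A * ((1 / (N : ℝ)) * ∑ j ∈ range N, ‖pk a m (z * omega N ^ j)‖ ^ 2) +
          B * q δ ^ (2 * m) := by
        rw [Finset.sum_add_distrib, ← Finset.mul_sum, sum_const, card_range, nsmul_eq_mul]
        field_simp
    _ = A * cm m + B * q δ ^ (2 * m) := by
        rw [sum_norm_pk_sq N m (by omega) a z]

end Pool.Agent.MP_7a5dd1_an
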