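import Pool.Agent.Lib.MP_7a5dd1_an.Defs

set_option autoImplicit false

namespace Pool.Agent.MP_7a5dd1_an

open Metric Set Filter Topology

/-- Bounded continuous functions on the closed unit disc. -/
abbrev BD := BoundedContinuousFunction (Metric.closedBall (0:ℂ) 1) ℂ

/-- The circle inside the closed disc. -/
noncomputable def circIncl : C(Circle, Metric.closedBall (0:ℂ) 1) :=
  ⟨fun z => ⟨(z:ℂ), by simp⟩, by fun_prop⟩

/-- Restriction to the circle. -/
noncomputable def restr : BD →L[ℂ] C(Circle, ℂ) :=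
  LinearMap.mkContinuous
    { toFun := fun f => (f.toContinuousMap).comp circIncl
      map_add' := fun f g => by ext z; rfl
      map_smul' := fun c f => by ext z; rfl } 1
    (fun f => by
      rw [one_mul]
      refine (ContinuousMap.norm_le _ (norm_nonneg _)).2 (fun z => ?_)
      exact f.norm_coe_le_norm _)

lemma restr_apply (f : BD) (z : Circle) : restr f z = f (circIncl z) := rfl

lemma restr_apply' (f : BD) (z : Circle) (hz : (z:ℂ) ∈ closedBall (0:ℂ) 1) :
    restr f z = f ⟨(z:ℂ), hz⟩ := rfl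

lemma dcc {f : BD} {g : ℂ → ℂ} (hg : DifferentiableOn ℂ g (ball (0:ℂ) 1))
    (hfg : ∀ z : closedBall (0:ℂ) 1, g (z : ℂ) = f z) : DiffContOnCl ℂ g (ball (0:ℂ) 1) := by
  refine ⟨hg, ?_⟩
  rw [closure_ball _ one_ne_zero, continuousOn_iff_continuous_domRestrict]
  have h : (closedBall (0:ℂ) 1).domRestrict g = f := by
    ext z
    exact hfg z
  rw [h]
  exact f.continuous

lemma norm_le_restr {f : BD} {g : ℂ → ℂ} (hg : DifferentiableOn ℂ g (ball (0:ℂ) 1))
    (hfg : ∀ z : closedBall (0:ℂ) 1, g (z : ℂ) = f z) : ‖f‖ ≤ ‖restr f‖ := by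
  refine (BoundedContinuousFunction.norm_le (norm_nonneg _)).2 (fun z => ?_)
  rw [← hfg z]
  refine Complex.norm_le_of_forall_mem_frontier_norm_le (U := ball (0:ℂ) 1) isBounded_ball
    (dcc hg hfg) ?_ ?_
  · intro w hw
    rw [frontier_ball _ one_ne_zero] at hw
    have hw1 : ‖w‖ = 1 := by simpa using hw
    have hwb : w ∈ closedBall (0:ℂ) 1 := by simp [hw1]
    have h1 := hfg ⟨w, hwb⟩
    have h2 := (restr f).norm_coe_le_norm (⟨w, by simpa [Submonoid.unitSphere] using hw1⟩ : Circle)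
    rw [restr_apply' f _ hwb] at h2
    change g w = _ at h1
    rw [h1]
    exact h2
  · rw [closure_ball _ one_ne_zero]
    exact z.2

/-- Extension by zero. -/
noncomputable def ext0 (f : BD) : ℂ → ℂ :=
  open Classical in fun z => if h : z ∈ closedBall (0:ℂ) 1 then f ⟨z, h⟩ else 0

lemma ext0_apply (f : BD) (z : closedBall (0:ℂ) 1) : ext0 f (z : ℂ) = f z := by
  unfold ext0
  rw [dif_pos z.2]

lemma mem_iff {A : Submodule ℂ BD}
    (hA : ∀ f, f ∈ A ↔ ∃ g : ℂ → ℂ, DifferentiableOn ℂ g (ball (0:ℂ) 1) ∧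
      ∀ z : closedBall (0:ℂ) 1, g (z : ℂ) = f z) (f : BD) :
    f ∈ A ↔ DifferentiableOn ℂ (ext0 f) (ball (0:ℂ) 1) := by
  rw [hA]
  constructor
  · rintro ⟨g, hg, hfg⟩
    refine hg.congr (fun z hz => ?_)
    have hz' : z ∈ closedBall (0:ℂ) 1 := ball_subset_closedBall hz
    have h1 := ext0_apply f ⟨z, hz'⟩
    have h2 := hfg ⟨z, hz'⟩
    change ext0 f z = _ at h1
    change g z = _ at h2
    rw [h1, h2]
  · intro h
    exact ⟨ext0 f, h, ext0_apply f⟩

lemma isClosed_A {A : Submodule ℂ BD}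
    (hA : ∀ f, f ∈ A ↔ ∃ g : ℂ → ℂ, DifferentiableOn ℂ g (ball (0:ℂ) 1) ∧
      ∀ z : closedBall (0:ℂ) 1, g (z : ℂ) = f z) : IsClosed (A : Set BD) := by
  refine IsSeqClosed.isClosed ?_
  intro F f hF hf
  change f ∈ A
  rw [mem_iff hA]
  have hF' : ∀ n, DifferentiableOn ℂ (ext0 (F n)) (ball (0:ℂ) 1) := fun n =>
    (mem_iff hA (F n)).1 (hF n)
  have hu : TendstoLocallyUniformlyOn (fun n => ext0 (F n)) (ext0 f) atTop (ball (0:ℂ) 1) := by
    apply TendstoUniformlyOn.tendstoLocallyUniformlyOn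
    rw [BoundedContinuousFunction.tendsto_iff_tendstoUniformly] at hf
    rw [Metric.tendstoUniformlyOn_iff]
    rw [Metric.tendstoUniformly_iff] at hf
    intro ε hε
    filter_upwards [hf ε hε] with n hn z hz
    have hz' : z ∈ closedBall (0:ℂ) 1 := ball_subset_closedBall hz
    have h1 := ext0_apply f ⟨z, hz'⟩
    have h2 := ext0_apply (F n) ⟨z, hz'⟩
    change ext0 f z = _ at h1
    change ext0 (F n) z = _ at h2
    rw [h1, h2]
    exact hn _
  exact hu.differentiableOn (Eventually.of_forall hF') isOpen_ball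

/-- The restriction map on the disc algebra, as an isometry. -/
noncomputable def restrIso {A : Submodule ℂ BD}
    (hA : ∀ f, f ∈ A ↔ ∃ g : ℂ → ℂ, DifferentiableOn ℂ g (ball (0:ℂ) 1) ∧
      ∀ z : closedBall (0:ℂ) 1, g (z : ℂ) = f z) : A →ₗᵢ[ℂ] C(Circle, ℂ) where
  toLinearMap := (restr : BD →ₗ[ℂ] C(Circle, ℂ)).comp A.subtype
  norm_map' := fun f => by
    obtain ⟨g, hg, hfg⟩ := (hA f.1).1 f.2
    apply le_antisymm
    · refine (ContinuousMap.norm_le _ (norm_nonneg _)).2 (fun z => ?_)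
      exact f.1.norm_coe_le_norm _
    · exact norm_le_restr hg hfg

lemma restrIso_apply {A : Submodule ℂ BD}
    (hA : ∀ f, f ∈ A ↔ ∃ g : ℂ → ℂ, DifferentiableOn ℂ g (ball (0:ℂ) 1) ∧
      ∀ z : closedBall (0:ℂ) 1, g (z : ℂ) = f z) (f : A) : restrIso hA f = restr f.1 := rfl

/-- The monomial on the closed disc. -/
noncomputable def monoD (n : ℕ) : BD :=
  BoundedContinuousFunction.mkOfCompact ⟨fun z => (z : ℂ) ^ n, by fun_prop⟩

lemma restr_monoD (n : ℕ) : restr (monoD n) = mono n := by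
  ext z
  rfl

lemma DA_le_range {A : Submodule ℂ BD}
    (hA : ∀ f, f ∈ A ↔ ∃ g : ℂ → ℂ, DifferentiableOn ℂ g (ball (0:ℂ) 1) ∧
      ∀ z : closedBall (0:ℂ) 1, g (z : ℂ) = f z) :
    DA ≤ LinearMap.range (restrIso hA).toLinearMap := by
  have : CompleteSpace A := (isClosed_A hA).completeSpace_coe
  refine Submodule.topologicalClosure_minimal _ ?_ ?_
  · rw [Submodule.span_le]
    rintro _ ⟨n, rfl⟩
    have hm : monoD n ∈ A := (hA _).2 ⟨fun z => z ^ n, by fun_prop, fun z => rfl⟩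
    refine ⟨⟨monoD n, hm⟩, ?_⟩
    exact restr_monoD n
  · have h := (restrIso hA).isometry.isClosedEmbedding.isClosed_range
    have h2 : ((LinearMap.range (restrIso hA).toLinearMap : Submodule ℂ C(Circle, ℂ)) :
        Set C(Circle, ℂ)) = Set.range (restrIso hA) := by
      ext x
      simp [LinearMap.mem_range]
    rw [h2]
    exact h

lemma restr_mem_DA {f : BD} {g : ℂ → ℂ} (hg : DifferentiableOn ℂ g (ball (0:ℂ) 1))
    (hfg : ∀ z : closedBall (0:ℂ) 1, g (z : ℂ) = f z) : restr f ∈ DA := by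
  have hd := dcc hg hfg
  have hps : HasFPowerSeriesOnBall g (cauchyPowerSeries g 0 (1 : NNReal)) 0 (1 : NNReal) :=
    DiffContOnCl.hasFPowerSeriesOnBall (R := 1) (by simpa using hd) one_pos
  set p := cauchyPowerSeries g 0 (1 : NNReal) with hp
  change restr f ∈ (Submodule.span ℂ (Set.range mono)).topologicalClosure
  rw [← SetLike.mem_coe, Submodule.topologicalClosure_coe, Metric.mem_closure_iff]
  intro ε hε
  have hcont : ContinuousOn g (closedBall (0:ℂ) 1) := by
    have := hd.continuousOn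
    rwa [closure_ball _ one_ne_zero] at this
  have huc := (isCompact_closedBall (0:ℂ) 1).uniformContinuousOn_of_continuous hcont
  rw [Metric.uniformContinuousOn_iff] at huc
  obtain ⟨δ, hδ, huc⟩ := huc (ε / 2) (by positivity)
  -- radii
  obtain ⟨r, hr0, hr1, hrδ⟩ : ∃ r : ℝ, 0 < r ∧ r < 1 ∧ 1 - r < δ := by
    refine ⟨1 - min δ 1 / 2, ?_, ?_, ?_⟩
    · have : min δ 1 ≤ 1 := min_le_right _ _
      linarith
    · have : 0 < min δ 1 := lt_min hδ one_pos
      linarith
    · have h1 : min δ 1 ≤ δ := min_le_left _ _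
      linarith
  obtain ⟨ρ, hρ1, hρr⟩ : ∃ ρ : NNReal, ρ < 1 ∧ r < (ρ : ℝ) := by
    refine ⟨NNReal.mk ((r + 1) / 2) (by linarith), ?_, ?_⟩
    · rw [← NNReal.coe_lt_coe]
      simp only [NNReal.coe_mk, NNReal.coe_one]
      linarith
    · simp only [NNReal.coe_mk]
      linarith
  have hunif := hps.tendstoUniformlyOn (r' := ρ) (by exact_mod_cast hρ1)
  rw [Metric.tendstoUniformlyOn_iff] at hunif
  obtain ⟨n, hn⟩ := (hunif (ε / 2) (by positivity)).exists
  refine ⟨∑ k ∈ Finset.range n, ((r : ℂ) ^ k * p.coeff k) • mono k, ?_, ?_⟩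
  · exact Submodule.sum_mem _ (fun k _ => Submodule.smul_mem _ _
      (Submodule.subset_span ⟨k, rfl⟩))
  · rw [dist_eq_norm, ContinuousMap.norm_lt_iff _ hε]
    intro z
    have hz1 : ‖(z : ℂ)‖ = 1 := by simp
    have hzb : (z : ℂ) ∈ closedBall (0:ℂ) 1 := by simp
    have hrz : ‖(r : ℂ) * z‖ = r := by
      rw [norm_mul, hz1, mul_one, Complex.norm_real, Real.norm_of_nonneg hr0.le]
    have hrzb : (r : ℂ) * z ∈ closedBall (0:ℂ) 1 := by
      rw [mem_closedBall_zero_iff, hrz]; exact hr1.le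
    have h1 : dist (g z) (g ((r : ℂ) * z)) < ε / 2 := by
      refine huc _ hzb _ hrzb ?_
      rw [dist_eq_norm]
      have : (z : ℂ) - r * z = ((1 - r : ℝ) : ℂ) * z := by push_cast; ring
      rw [this, norm_mul, hz1, mul_one, Complex.norm_real, Real.norm_of_nonneg (by linarith)]
      exact hrδ
    have h2 : dist (g ((r : ℂ) * z)) (p.partialSum n ((r : ℂ) * z)) < ε / 2 := by
      have := hn ((r : ℂ) * z) (by
        rw [mem_ball_zero_iff, hrz]
        exact hρr)
      simpa using this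
    have h3 : (∑ k ∈ Finset.range n, ((r : ℂ) ^ k * p.coeff k) • mono k) z
        = p.partialSum n ((r : ℂ) * z) := by
      rw [ContinuousMap.sum_apply, FormalMultilinearSeries.partialSum]
      refine Finset.sum_congr rfl (fun k _ => ?_)
      rw [FormalMultilinearSeries.apply_eq_pow_smul_coeff, ContinuousMap.smul_apply]
      simp only [mono, ContinuousMap.coe_mk, smul_eq_mul, mul_pow]
      ring
    rw [ContinuousMap.sub_apply, h3, restr_apply' f z hzb, ← hfg ⟨(z : ℂ), hzb⟩, ← dist_eq_norm]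
    calc dist (g z) (p.partialSum n ((r : ℂ) * z))
        ≤ dist (g z) (g ((r : ℂ) * z)) + dist (g ((r : ℂ) * z)) (p.partialSum n ((r : ℂ) * z)) :=
          dist_triangle _ _ _
      _ < ε / 2 + ε / 2 := add_lt_add h1 h2
      _ = ε := by ring

lemma range_eq_DA {A : Submodule ℂ BD}
    (hA : ∀ f, f ∈ A ↔ ∃ g : ℂ → ℂ, DifferentiableOn ℂ g (ball (0:ℂ) 1) ∧
      ∀ z : closedBall (0:ℂ) 1, g (z : ℂ) = f z) :
    LinearMap.range (restrIso hA).toLinearMap = DA := by
  apply le_antisymm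
  · rintro _ ⟨f, rfl⟩
    obtain ⟨g, hg, hfg⟩ := (hA f.1).1 f.2
    exact restr_mem_DA hg hfg
  · exact DA_le_range hA

/-- The frozen disc algebra is isomorphic to `DA`. -/
theorem transfer (A : Submodule ℂ (BoundedContinuousFunction (Metric.closedBall (0:ℂ) 1) ℂ))
    (hA : ∀ f : BoundedContinuousFunction (Metric.closedBall (0:ℂ) 1) ℂ,
      f ∈ A ↔ ∃ g : ℂ → ℂ, DifferentiableOn ℂ g (Metric.ball (0:ℂ) 1) ∧
        ∀ z : Metric.closedBall (0:ℂ) 1, g (z : ℂ) = f z) : Nonempty (A ≃L[ℂ] DA) := by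
  have e1 : A ≃ₗᵢ[ℂ] LinearMap.range (restrIso hA).toLinearMap := (restrIso hA).equivRange
  have e2 : LinearMap.range (restrIso hA).toLinearMap ≃ₗᵢ[ℂ] DA :=
    LinearIsometryEquiv.ofEq _ _ (range_eq_DA hA)
  exact ⟨(e1.trans e2).toContinuousLinearEquiv⟩

/-- Primariness is an isomorphism invariant. -/
theorem primary_of_equiv {X Y : Type*} [NormedAddCommGroup X] [NormedSpace ℂ X]
    [NormedAddCommGroup Y] [NormedSpace ℂ Y] (e : X ≃L[ℂ] Y)
    (hY : ∀ P : Y →L[ℂ] Y, P.comp P = P →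
      Nonempty (LinearMap.range P.toLinearMap ≃L[ℂ] Y) ∨
        Nonempty (LinearMap.ker P.toLinearMap ≃L[ℂ] Y))
    (P : X →L[ℂ] X) (hP : P.comp P = P) :
    Nonempty (LinearMap.range P.toLinearMap ≃L[ℂ] X) ∨
      Nonempty (LinearMap.ker P.toLinearMap ≃L[ℂ] X) := by
  let Q : Y →L[ℂ] Y := (e : X →L[ℂ] Y).comp (P.comp (e.symm : Y →L[ℂ] X))
  have hQa : ∀ y, Q y = e (P (e.symm y)) := fun y => rfl
  have hPP : ∀ x, P (P x) = P x := fun x => by
    have := congrArg (fun T : X →L[ℂ] X => T x) hP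
    simpa using this
  have hQ : Q.comp Q = Q := by
    ext y
    rw [ContinuousLinearMap.comp_apply, hQa, hQa, e.symm_apply_apply, hPP]
  have hr : (LinearMap.range P.toLinearMap).map (e.toLinearEquiv : X →ₗ[ℂ] Y)
      = LinearMap.range Q.toLinearMap := by
    ext y
    constructor
    · rintro ⟨_, ⟨x, rfl⟩, rfl⟩
      refine ⟨e x, ?_⟩
      change Q (e x) = e (P x)
      rw [hQa, e.symm_apply_apply]
    · rintro ⟨z, rfl⟩
      exact ⟨P (e.symm z), ⟨e.symm z, rfl⟩, rfl⟩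
  have hk : (LinearMap.ker P.toLinearMap).map (e.toLinearEquiv : X →ₗ[ℂ] Y)
      = LinearMap.ker Q.toLinearMap := by
    ext y
    constructor
    · rintro ⟨x, hx, rfl⟩
      have hx' : P x = 0 := hx
      change Q (e x) = 0
      rw [hQa, e.symm_apply_apply, hx', map_zero]
    · intro hy
      have hy' : Q y = 0 := hy
      rw [hQa] at hy'
      refine ⟨e.symm y, ?_, e.apply_symm_apply y⟩
      change P (e.symm y) = 0
      exact e.injective (by rw [hy', map_zero])
  have er : LinearMap.range P.toLinearMap ≃L[ℂ] LinearMap.range Q.toLinearMap := by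
    rw [← hr]
    exact e.submoduleMap _
  have ek : LinearMap.ker P.toLinearMap ≃L[ℂ] LinearMap.ker Q.toLinearMap := by
    rw [← hk]
    exact e.submoduleMap _
  rcases hY Q hQ with ⟨⟨f⟩⟩ | ⟨⟨f⟩⟩
  · exact Or.inl ⟨(er.trans f).trans e.symm⟩
  · exact Or.inr ⟨(ek.trans f).trans e.symm⟩

/-- The frozen statement S05113 follows from the primariness of `DA`. -/
theorem final (hDA : ∀ P : DA →L[ℂ] DA, P.comp P = P →
      Nonempty (LinearMap.range P.toLinearMap ≃L[ℂ] DA) ∨
        Nonempty (LinearMap.ker P.toLinearMap ≃L[ℂ] DA)) :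
    ∀ A : Submodule ℂ (BoundedContinuousFunction (Metric.closedBall (0:ℂ) 1) ℂ),
      (∀ f : BoundedContinuousFunction (Metric.closedBall (0:ℂ) 1) ℂ,
        f ∈ A ↔ ∃ g : ℂ → ℂ, DifferentiableOn ℂ g (Metric.ball (0:ℂ) 1) ∧
          ∀ z : Metric.closedBall (0:ℂ) 1, g (z : ℂ) = f z) →
      ∀ P : A →L[ℂ] A, P.comp P = P →
        (Nonempty (LinearMap.range P.toLinearMap ≃L[ℂ] A) ∨
          Nonempty (LinearMap.ker P.toLinearMap ≃L[ℂ] A)) := by
  intro A hA P hP
  obtain ⟨e⟩ := transfer A hA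
  exact primary_of_equiv e hDA P hP

end Pool.Agent.MP_7a5dd1_an
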